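import Pool.Agent.Q241.KL.S

/-! # Integrals over cubes -/

set_option autoImplicit false

namespace Q241.GL

open Finset Filter Topology MeasureTheory
open Q241.KL (SA SI SA_det_nonneg SA_det_le SA_det_abs SA_cont snoc_cont)

/-- the cube `[0, s]^n` -/
def Q (n : ℕ) (s : ℝ) : Set (Fin n → ℝ) := Set.Icc 0 fun _ => s

theorem mem_Q {n : ℕ} {s : ℝ} {u : Fin n → ℝ} : u ∈ Q n s ↔ ∀ i, 0 ≤ u i ∧ u i ≤ s := by
  unfold Q
  rw [Set.mem_Icc, Pi.le_def, Pi.le_def]
  constructor
  · rintro ⟨h1, h2⟩ i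
    exact ⟨h1 i, h2 i⟩
  · intro h
    exact ⟨fun i => (h i).1, fun i => (h i).2⟩

theorem Q_meas (n : ℕ) (s : ℝ) : MeasurableSet (Q n s) := measurableSet_Icc

theorem Q_compact (n : ℕ) (s : ℝ) : IsCompact (Q n s) := isCompact_Icc

theorem Q_vol (n : ℕ) {s : ℝ} (hs : 0 ≤ s) : volume.real (Q n s) = s ^ n := by
  unfold Q
  rw [Measure.real, Real.volume_Icc_pi]
  simp only [Pi.zero_apply, sub_zero]
  rw [Finset.prod_const, ENNReal.toReal_pow, Finset.card_univ, Fintype.card_fin,
    ENNReal.toReal_ofReal hs]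

/-- the diagonals are null sets -/
theorem diag_null {n : ℕ} {i j : Fin n} (hij : i ≠ j) :
    volume {u : Fin n → ℝ | u i = u j} = 0 := by
  set S : Submodule ℝ (Fin n → ℝ) :=
    LinearMap.ker ((LinearMap.proj i : (Fin n → ℝ) →ₗ[ℝ] ℝ) - LinearMap.proj j) with hS
  have e : {u : Fin n → ℝ | u i = u j} = (S : Set (Fin n → ℝ)) := by
    ext u
    rw [hS, SetLike.mem_coe, LinearMap.mem_ker, LinearMap.sub_apply, LinearMap.proj_apply,
      LinearMap.proj_apply, sub_eq_zero]
    rfl
  rw [e]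
  refine Measure.addHaar_submodule volume S ?_
  intro h
  have h1 : (Pi.single i 1 : Fin n → ℝ) ∈ S := by rw [h]; exact Submodule.mem_top
  rw [hS, LinearMap.mem_ker, LinearMap.sub_apply, LinearMap.proj_apply, LinearMap.proj_apply,
    Pi.single_eq_same, Pi.single_eq_of_ne hij.symm] at h1
  norm_num at h1

/-- permutations of the coordinates preserve the measure -/
theorem perm_mp {n : ℕ} (σ : Equiv.Perm (Fin n)) :
    MeasurePreserving (fun u : Fin n → ℝ => u ∘ σ) volume volume := by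
  have h := volume_measurePreserving_piCongrLeft (fun _ : Fin n => ℝ) σ.symm
  have e : (fun u : Fin n → ℝ => u ∘ σ) =
      (MeasurableEquiv.piCongrLeft (fun _ : Fin n => ℝ) σ.symm : (Fin n → ℝ) → (Fin n → ℝ)) := by
    funext u
    funext i
    have := Equiv.piCongrLeft_apply_apply (fun _ : Fin n => ℝ) σ.symm u (σ i)
    rw [Equiv.symm_apply_apply] at this
    exact this.symm
  rw [e]
  exact h

theorem perm_emb {n : ℕ} (σ : Equiv.Perm (Fin n)) :
    MeasurableEmbedding (fun u : Fin n → ℝ => u ∘ σ) := by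
  have e : (fun u : Fin n → ℝ => u ∘ σ) =
      (MeasurableEquiv.piCongrLeft (fun _ : Fin n => ℝ) σ.symm : (Fin n → ℝ) → (Fin n → ℝ)) := by
    funext u
    funext i
    have := Equiv.piCongrLeft_apply_apply (fun _ : Fin n => ℝ) σ.symm u (σ i)
    rw [Equiv.symm_apply_apply] at this
    exact this.symm
  rw [e]
  exact (MeasurableEquiv.piCongrLeft (fun _ : Fin n => ℝ) σ.symm).measurableEmbedding

/-- the part of the cube where the `i`-th coordinate is the strict maximum -/
def QM (n : ℕ) (s : ℝ) (i : Fin n) : Set (Fin n → ℝ) := {u | u ∈ Q n s ∧ ∀ j, j ≠ i → u j < u i}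

theorem QM_meas (n : ℕ) (s : ℝ) (i : Fin n) : MeasurableSet (QM n s i) := by
  have : QM n s i = Q n s ∩ ⋂ j : Fin n, {u | j ≠ i → u j < u i} := by
    ext u
    simp only [QM, Set.mem_ofPred_eq, Set.mem_inter_iff, Set.mem_iInter]
  rw [this]
  refine (Q_meas n s).inter (MeasurableSet.iInter fun j => ?_)
  by_cases hj : j = i
  · have : {u : Fin n → ℝ | j ≠ i → u j < u i} = Set.univ := by
      ext u
      simp [hj]
    rw [this]
    exact MeasurableSet.univ
  · have : {u : Fin n → ℝ | j ≠ i → u j < u i} = {u | u j < u i} := by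
      ext u
      simp [hj]
    rw [this]
    exact measurableSet_lt (measurable_pi_apply j) (measurable_pi_apply i)

theorem Q_split (n : ℕ) (s : ℝ) :
    (Q (n + 1) s : Set (Fin (n + 1) → ℝ)) =ᵐ[volume] ⋃ i, QM (n + 1) s i := by
  rw [ae_eq_set]
  constructor
  · refine measure_mono_null (t := ⋃ i : Fin (n + 1), ⋃ j : Fin (n + 1), ⋃ _ : i ≠ j,
      {u : Fin (n + 1) → ℝ | u i = u j}) ?_ ?_
    · rintro u ⟨h1, h2⟩
      obtain ⟨i, -, hi⟩ := Finset.exists_max_image (univ : Finset (Fin (n + 1))) u ⟨0, mem_univ _⟩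
      by_contra hc
      apply h2
      rw [Set.mem_iUnion]
      refine ⟨i, h1, fun j hj => lt_of_le_of_ne (hi j (mem_univ _)) fun he => hc ?_⟩
      simp only [Set.mem_iUnion]
      exact ⟨j, i, hj, he⟩
    · refine measure_iUnion_null fun i => measure_iUnion_null fun j => measure_iUnion_null fun h => ?_
      exact diag_null h
  · have : (⋃ i, QM (n + 1) s i) \ Q (n + 1) s = ∅ := by
      rw [Set.sdiff_eq_empty]
      intro u hu
      obtain ⟨i, hi⟩ := Set.mem_iUnion.mp hu
      exact hi.1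
    rw [this]
    exact measure_empty

theorem QM_disj (n : ℕ) (s : ℝ) : Pairwise fun i j => Disjoint (QM n s i) (QM n s j) := by
  intro i j hij
  rw [Set.disjoint_left]
  rintro u ⟨-, h1⟩ ⟨-, h2⟩
  exact absurd (h1 j hij.symm) (not_lt.mpr (h2 i hij).le)

theorem QM_swap (n : ℕ) (s : ℝ) (i : Fin (n + 1)) :
    (fun u : Fin (n + 1) → ℝ => u ∘ Equiv.swap 0 i) ⁻¹' QM (n + 1) s 0 = QM (n + 1) s i := by
  ext u
  rw [Set.mem_preimage]
  constructor
  · rintro ⟨h1, h2⟩
    refine ⟨?_, fun j hj => ?_⟩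
    · rw [mem_Q] at h1 ⊢
      intro l
      have := h1 (Equiv.swap 0 i l)
      simpa using this
    · have h3 := h2 (Equiv.swap 0 i j) (by
        intro h
        apply hj
        have := congrArg (Equiv.swap 0 i) h
        simpa using this)
      simpa using h3
  · rintro ⟨h1, h2⟩
    refine ⟨?_, fun j hj => ?_⟩
    · rw [mem_Q] at h1 ⊢
      intro l
      exact h1 (Equiv.swap 0 i l)
    · have h3 := h2 (Equiv.swap 0 i j) (by
        intro h
        apply hj
        have := congrArg (Equiv.swap 0 i) h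
        simpa using this)
      simpa using h3

/-- `QM n s 0` in coordinates -/
theorem QM_zero_int (n : ℕ) {s : ℝ} {h : (Fin (n + 1) → ℝ) → ℝ} (hh : Continuous h) :
    ∫ u in QM (n + 1) s 0, h u = ∫ t in Set.Icc 0 s, ∫ v in Q n t, h (Fin.cons t v) := by
  set e : ℝ × (Fin n → ℝ) ≃ᵐ (Fin (n + 1) → ℝ) :=
    (MeasurableEquiv.piFinSuccAbove (fun _ => ℝ) 0).symm with he
  have hem : MeasurePreserving e :=
    (volume_preserving_piFinSuccAbove (fun _ : Fin (n + 1) => ℝ) 0).symm _
  have hev : ∀ p, e p = Fin.cons p.1 p.2 := by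
    intro p
    rw [he, MeasurableEquiv.piFinSuccAbove_symm_apply]
    exact Fin.insertNth_zero' p.1 p.2
  have hcont : Continuous fun p : ℝ × (Fin n → ℝ) => h (Fin.cons p.1 p.2 : Fin (n + 1) → ℝ) := by
    refine hh.comp (continuous_pi fun i => ?_)
    refine Fin.cases ?_ (fun i => ?_) i
    · simp only [Fin.cons_zero]
      exact continuous_fst
    · simp only [Fin.cons_succ]
      exact (continuous_apply i).comp continuous_snd
  set S : Set (ℝ × (Fin n → ℝ)) := e ⁻¹' QM (n + 1) s 0 with hS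
  have hSm : MeasurableSet S := e.measurable (QM_meas (n + 1) s 0)
  have hmem : ∀ t : ℝ, ∀ v : Fin n → ℝ, (t, v) ∈ S ↔
      (0 ≤ t ∧ t ≤ s) ∧ ∀ i, 0 ≤ v i ∧ v i < t := by
    intro t v
    rw [hS, Set.mem_preimage, hev]
    unfold QM
    rw [Set.mem_ofPred_eq, mem_Q, Fin.forall_fin_succ]
    simp only [Fin.cons_zero, Fin.cons_succ, Fin.forall_fin_succ, ne_eq, not_true_eq_false,
      IsEmpty.forall_iff, true_and, Fin.succ_ne_zero, not_false_eq_true, forall_true_left]
    constructor
    · rintro ⟨⟨h1, h2⟩, h3⟩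
      exact ⟨h1, fun i => ⟨(h2 i).1, h3 i⟩⟩
    · rintro ⟨h1, h2⟩
      exact ⟨⟨h1, fun i => ⟨(h2 i).1, (h2 i).2.le.trans h1.2⟩⟩, fun i => (h2 i).2⟩
  rw [← hem.setIntegral_preimage_emb e.measurableEmbedding h, ← hS]
  have hfe : ∀ p : ℝ × (Fin n → ℝ), h (e p) = h (Fin.cons p.1 p.2) := fun p => by rw [hev]
  simp_rw [hfe]
  have hsub : S ⊆ Set.Icc 0 s ×ˢ Q n s := by
    rintro ⟨t, v⟩ hp
    rw [hmem] at hp
    refine ⟨⟨hp.1.1, hp.1.2⟩, mem_Q.mpr fun i => ⟨(hp.2 i).1, (hp.2 i).2.le.trans hp.1.2⟩⟩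
  have hint : IntegrableOn (fun p : ℝ × (Fin n → ℝ) => h (Fin.cons p.1 p.2 : Fin (n + 1) → ℝ)) S :=
    (hcont.continuousOn.integrableOn_compact (isCompact_Icc.prod (Q_compact n s))).mono_set hsub
  rw [← integral_indicator hSm]
  rw [Measure.volume_eq_prod, integral_prod]
  · rw [← integral_indicator measurableSet_Icc]
    congr 1
    funext t
    by_cases ht : t ∈ Set.Icc 0 s
    · rw [Set.indicator_of_mem ht]
      have e1 : ∀ v : Fin n → ℝ, S.indicator (fun p : ℝ × (Fin n → ℝ) =>
          h (Fin.cons p.1 p.2 : Fin (n + 1) → ℝ)) (t, v) =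
          (Set.univ.pi fun _ : Fin n => Set.Ico 0 t).indicator
            (fun v => h (Fin.cons t v : Fin (n + 1) → ℝ)) v := by
        intro v
        by_cases hv : v ∈ (Set.univ.pi fun _ : Fin n => Set.Ico 0 t)
        · have : (t, v) ∈ S := by
            rw [hmem]
            exact ⟨ht, fun i => hv i (Set.mem_univ i)⟩
          rw [Set.indicator_of_mem hv, Set.indicator_of_mem this]
        · have : (t, v) ∉ S := by
            intro hc
            apply hv
            rw [hmem] at hc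
            exact fun i _ => hc.2 i
          rw [Set.indicator_of_notMem hv, Set.indicator_of_notMem this]
      simp_rw [e1]
      rw [integral_indicator (MeasurableSet.univ_pi fun _ => measurableSet_Ico)]
      refine setIntegral_congr_set ?_
      unfold Q
      exact Measure.univ_pi_Ico_ae_eq_Icc (μ := fun _ : Fin n => (volume : Measure ℝ))
        (f := fun _ : Fin n => (0 : ℝ)) (g := fun _ => t)
    · rw [Set.indicator_of_notMem ht]
      have e1 : ∀ v : Fin n → ℝ, S.indicator (fun p : ℝ × (Fin n → ℝ) =>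
          h (Fin.cons p.1 p.2 : Fin (n + 1) → ℝ)) (t, v) = 0 := by
        intro v
        rw [Set.indicator_of_notMem]
        intro hc
        rw [hmem] at hc
        exact ht hc.1
      simp_rw [e1]
      exact integral_zero _ _
  · rw [← Measure.volume_eq_prod]
    exact hint.integrable_indicator hSm

/-- **integrals of symmetric functions over cubes** -/
theorem cube_max (n : ℕ) {s : ℝ} (hs : 0 ≤ s) {h : (Fin (n + 1) → ℝ) → ℝ} (hh : Continuous h)
    (hsym : ∀ i : Fin (n + 1), ∀ u, h (u ∘ Equiv.swap 0 i) = h u) :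
    ∫ u in Q (n + 1) s, h u = (n + 1) * ∫ t in (0 : ℝ)..s, ∫ v in Q n t, h (Fin.cons t v) := by
  have hint : IntegrableOn h (Q (n + 1) s) := hh.continuousOn.integrableOn_compact (Q_compact _ s)
  rw [setIntegral_congr_set (Q_split n s), integral_iUnion (QM_meas _ s) (QM_disj _ s)
    (hint.congr_set_ae (Q_split n s).symm), tsum_fintype]
  have h1 : ∀ i : Fin (n + 1), ∫ u in QM (n + 1) s i, h u = ∫ u in QM (n + 1) s 0, h u := by
    intro i
    rw [← (perm_mp (Equiv.swap 0 i)).setIntegral_preimage_emb (perm_emb _) h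
      (QM (n + 1) s 0), QM_swap]
    refine setIntegral_congr_fun (QM_meas (n + 1) s i) fun u _ => ?_
    exact (hsym i u).symm
  rw [Finset.sum_congr rfl fun i _ => h1 i, Finset.sum_const, Finset.card_univ, Fintype.card_fin,
    nsmul_eq_mul, QM_zero_int n hh, intervalIntegral.integral_of_le hs,
    integral_Icc_eq_integral_Ioc]
  push_cast
  rfl

end Q241.GL
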