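import Pool.Agent.Q241.GL.A

/-! # The Gaudin law: the series for the Fredholm determinant and its derivatives -/

set_option autoImplicit false

namespace Q241.GL

open Finset Filter Topology MeasureTheory Pointwise
open Q241.KL (SA SI SA_det_nonneg SA_det_le SA_det_abs SA_cont snoc_cont)

/-- continuity of integrals over cubes -/
theorem cube_cont (n : ℕ) {g : ℝ → (Fin n → ℝ) → ℝ} (hg : Continuous g.uncurry) :
    ContinuousOn (fun t => ∫ v in Q n t, g t v) (Set.Ioi 0) := by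
  have h1 : Continuous fun t : ℝ => ∫ w in Q n 1, g t (t • w) := by
    refine continuous_parametric_integral_of_continuous (f := fun t w => g t (t • w)) ?_
      (Q_compact n 1)
    have : (Function.uncurry fun (t : ℝ) (w : Fin n → ℝ) => g t (t • w)) =
        g.uncurry ∘ fun p : ℝ × (Fin n → ℝ) => (p.1, p.1 • p.2) := rfl
    rw [this]
    exact hg.comp (continuous_fst.prodMk (continuous_fst.smul continuous_snd))
  have h2 : ContinuousOn (fun t : ℝ => t ^ n * ∫ w in Q n 1, g t (t • w)) (Set.Ioi 0) :=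
    ((continuous_pow n).mul h1).continuousOn
  refine h2.congr fun t ht => ?_
  have ht0 : (0 : ℝ) < t := ht
  have h3 := Measure.setIntegral_comp_smul_of_pos (volume : Measure (Fin n → ℝ)) (g t) (Q n 1) ht0
  have h4 : t • Q n 1 = Q n t := by
    ext u
    rw [Set.mem_smul_set_iff_inv_smul_mem₀ ht0.ne', mem_Q, mem_Q]
    refine forall_congr' fun i => ?_
    rw [Pi.smul_apply, smul_eq_mul]
    constructor
    · rintro ⟨h5, h6⟩
      constructor
      · by_contra hc
        push Not at hc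
        have := mul_neg_of_pos_of_neg (inv_pos.mpr ht0) hc
        linarith
      · rwa [inv_mul_le_iff₀ ht0, mul_one] at h6
    · rintro ⟨h5, h6⟩
      constructor
      · positivity
      · rwa [inv_mul_le_iff₀ ht0, mul_one]
  show ∫ v in Q n t, g t v = t ^ n * ∫ w in Q n 1, g t (t • w)
  rw [h3, h4, Module.finrank_fin_fun, smul_eq_mul, ← mul_assoc, mul_inv_cancel₀ (pow_ne_zero n ht0.ne'),
    one_mul]

/-- the integral of a function bounded by one over the cube -/
theorem cube_le (n : ℕ) {s : ℝ} (hs : 0 ≤ s) {g : (Fin n → ℝ) → ℝ} (hg : ∀ u, |g u| ≤ 1) :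
    |∫ u in Q n s, g u| ≤ s ^ n := by
  have h1 : ‖∫ u in Q n s, g u‖ ≤ 1 * volume.real (Q n s) :=
    norm_setIntegral_le_of_norm_le_const (Q_compact n s).measure_lt_top fun u _ => hg u
  rwa [Q_vol n hs, one_mul] at h1

/-- alternating exponential series -/
noncomputable def S (f : ℕ → ℝ → ℝ) (s : ℝ) : ℝ := ∑' j : ℕ, (-1) ^ j / (j.factorial : ℝ) * f j s

/-- the conditions on the terms -/
structure Adm (f : ℕ → ℝ → ℝ) : Prop where
  bd : ∀ j s, 0 < s → |f j s| ≤ s ^ j
  ct : ∀ j, ContinuousOn (f j) (Set.Ioi 0)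

theorem term_le {f : ℕ → ℝ → ℝ} (hf : Adm f) (j : ℕ) {s M : ℝ} (hs : 0 < s) (hM : s ≤ M) :
    ‖(-1) ^ j / (j.factorial : ℝ) * f j s‖ ≤ M ^ j / (j.factorial : ℝ) := by
  have h1 : (0 : ℝ) < (j.factorial : ℝ) := by exact_mod_cast j.factorial_pos
  rw [norm_mul, norm_div, norm_pow, norm_neg, norm_one, one_pow, Real.norm_of_nonneg h1.le,
    Real.norm_eq_abs, one_div, inv_mul_eq_div]
  refine div_le_div_of_nonneg_right ?_ h1.le
  exact (hf.bd j s hs).trans (pow_le_pow_left₀ hs.le hM j)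

theorem exp_summable (M : ℝ) : Summable fun j : ℕ => M ^ j / (j.factorial : ℝ) :=
  Real.summable_pow_div_factorial M

theorem summ {f : ℕ → ℝ → ℝ} (hf : Adm f) {s : ℝ} (hs : 0 < s) :
    Summable fun j : ℕ => (-1) ^ j / (j.factorial : ℝ) * f j s :=
  Summable.of_norm_bounded (exp_summable s) fun j => term_le hf j hs le_rfl

theorem S_cont {f : ℕ → ℝ → ℝ} (hf : Adm f) : ContinuousOn (S f) (Set.Ioi 0) := by
  intro s hs
  have hs0 : (0 : ℝ) < s := hs
  have h1 : ContinuousOn (S f) (Set.Ioo 0 (s + 1)) := by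
    unfold S
    refine continuousOn_tsum (u := fun j : ℕ => (s + 1) ^ j / (j.factorial : ℝ)) ?_
      (exp_summable (s + 1)) ?_
    · intro j
      exact continuousOn_const.mul ((hf.ct j).mono fun x hx => hx.1)
    · intro j x hx
      exact term_le hf j hx.1 hx.2.le
  exact (h1.continuousAt (Ioo_mem_nhds hs0 (by linarith))).continuousWithinAt

theorem int_meas {f : ℝ → ℝ} (hf : ContinuousOn f (Set.Ioi 0)) {s : ℝ} (hs : 0 ≤ s) :
    AEStronglyMeasurable f (volume.restrict (Set.uIoc 0 s)) := by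
  rw [Set.uIoc_of_le hs]
  exact (hf.mono fun x hx => hx.1).aestronglyMeasurable measurableSet_Ioc

theorem int_int {f : ℝ → ℝ} (hf : ContinuousOn f (Set.Ioi 0)) {s C : ℝ} (hs : 0 ≤ s)
    (hC : ∀ x, 0 < x → x ≤ s → |f x| ≤ C) : IntervalIntegrable f volume 0 s := by
  rw [intervalIntegrable_iff]
  have h1 : Integrable (fun _ : ℝ => C) (volume.restrict (Set.uIoc 0 s)) := by
    rw [Set.uIoc_of_le hs]
    exact integrable_const C
  refine h1.mono' (int_meas hf hs) ?_
  rw [Set.uIoc_of_le hs]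
  refine (ae_restrict_iff' measurableSet_Ioc).mpr (ae_of_all _ fun x hx => ?_)
  exact hC x hx.1 hx.2

theorem S_le {f : ℕ → ℝ → ℝ} (hf : Adm f) {s M : ℝ} (hs : 0 < s) (hM : s ≤ M) :
    |S f s| ≤ Real.exp M := by
  have h1 := tsum_of_norm_bounded (f := fun j : ℕ => (-1) ^ j / (j.factorial : ℝ) * f j s)
    (g := fun j : ℕ => M ^ j / (j.factorial : ℝ)) (a := Real.exp M) ?_
    fun j => term_le hf j hs hM
  · exact h1
  · rw [Real.exp_eq_exp_ℝ]
    exact NormedSpace.expSeries_div_hasSum_exp M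

theorem S_ii {f : ℕ → ℝ → ℝ} (hf : Adm f) {s : ℝ} (hs : 0 ≤ s) :
    IntervalIntegrable (S f) volume 0 s :=
  int_int (S_cont hf) hs fun _ hx hxs => S_le hf hx hxs

theorem S_int {f : ℕ → ℝ → ℝ} (hf : Adm f) {s : ℝ} (hs : 0 ≤ s) :
    HasSum (fun j : ℕ => (-1) ^ j / (j.factorial : ℝ) * ∫ t in (0 : ℝ)..s, f j t)
      (∫ t in (0 : ℝ)..s, S f t) := by
  have h := intervalIntegral.hasSum_integral_of_dominated_convergence (μ := volume) (a := 0) (b := s)
    (F := fun j t => (-1) ^ j / (j.factorial : ℝ) * f j t) (f := S f)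
    (fun j _ => s ^ j / (j.factorial : ℝ)) ?_ ?_ ?_ ?_ ?_
  · refine h.congr_fun ?_ |> fun h => h
    intro j
    rw [intervalIntegral.integral_const_mul]
  · intro j
    exact (int_meas (hf.ct j) hs).const_mul _
  · intro j
    refine ae_of_all _ fun t ht => ?_
    rw [Set.uIoc_of_le hs] at ht
    exact term_le hf j ht.1 ht.2
  · exact ae_of_all _ fun _ _ => exp_summable s
  · exact intervalIntegrable_const
  · refine ae_of_all _ fun t ht => ?_
    rw [Set.uIoc_of_le hs] at ht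
    exact (summ hf ht.1).hasSum

/-- differentiation of the series -/
theorem S_prim {f F : ℕ → ℝ → ℝ} (hf : Adm f) (h0 : ∀ s, 0 < s → F 0 s = 1)
    (h1 : ∀ j s, 0 < s → F (j + 1) s = (j + 1) * ∫ t in (0 : ℝ)..s, f j t) {s : ℝ} (hs : 0 < s) :
    S F s = 1 - ∫ t in (0 : ℝ)..s, S f t := by
  have h2 := S_int hf hs.le
  have e : ∀ j : ℕ, (-1) ^ (j + 1) / ((j + 1).factorial : ℝ) * F (j + 1) s =
      -((-1) ^ j / (j.factorial : ℝ) * ∫ t in (0 : ℝ)..s, f j t) := by
    intro j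
    rw [h1 j s hs, Nat.factorial_succ]
    push_cast
    have h3 : (j.factorial : ℝ) ≠ 0 := by exact_mod_cast j.factorial_ne_zero
    have h4 : (j : ℝ) + 1 ≠ 0 := by positivity
    field_simp
    ring
  have h3 : HasSum (fun j : ℕ => (-1) ^ (j + 1) / ((j + 1).factorial : ℝ) * F (j + 1) s)
      (-∫ t in (0 : ℝ)..s, S f t) := by
    simp_rw [e]
    exact h2.neg
  have h5 : HasSum (fun j : ℕ => (-1) ^ j / (j.factorial : ℝ) * F j s)
      (-(∫ t in (0 : ℝ)..s, S f t) + ∑ j ∈ range 1, (-1) ^ j / (j.factorial : ℝ) * F j s) :=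
    (hasSum_nat_add_iff 1).mp h3
  rw [S, h5.tsum_eq, Finset.sum_range_one, h0 s hs]
  simp
  ring

theorem S_deriv {f F : ℕ → ℝ → ℝ} (hf : Adm f) (h0 : ∀ s, 0 < s → F 0 s = 1)
    (h1 : ∀ j s, 0 < s → F (j + 1) s = (j + 1) * ∫ t in (0 : ℝ)..s, f j t) {s : ℝ} (hs : 0 < s) :
    HasDerivAt (S F) (-S f s) s := by
  have h2 : HasDerivAt (fun s => ∫ t in (0 : ℝ)..s, S f t) (S f s) s := by
    refine intervalIntegral.integral_hasDerivAt_right (S_ii hf hs.le) ?_
      ((S_cont hf).continuousAt (Ioi_mem_nhds hs))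
    exact (S_cont hf).stronglyMeasurableAtFilter isOpen_Ioi s hs
  have h3 : HasDerivAt (fun s => 1 - ∫ t in (0 : ℝ)..s, S f t) (-S f s) s := by
    simpa using h2.const_sub 1
  refine h3.congr_of_eventuallyEq ?_
  filter_upwards [Ioi_mem_nhds hs] with x hx
  exact S_prim hf h0 h1 hx

end Q241.GL
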