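import Pool.Agent.Q241.GL.B

/-! # The Fredholm determinant of the sine kernel and its first two derivatives -/

set_option autoImplicit false

namespace Q241.GL

open Finset Filter Topology MeasureTheory
open Q241.KL (SA SI SA_det_nonneg SA_det_le SA_det_abs SA_cont snoc_cont)

/-- the integral of the determinant over the cube -/
noncomputable def ia (j : ℕ) (s : ℝ) : ℝ := ∫ u in Q j s, (SA u).det

/-- with one point fixed at `0` -/
noncomputable def ib (j : ℕ) (s : ℝ) : ℝ := ∫ u in Q j s, (SA (Fin.snoc u 0 : Fin (j + 1) → ℝ)).det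

/-- with the points `0` and `s` fixed -/
noncomputable def ic (j : ℕ) (s : ℝ) : ℝ :=
  ∫ u in Q j s, (SA (Fin.snoc (Fin.cons s u : Fin (j + 1) → ℝ) 0 : Fin (j + 2) → ℝ)).det

theorem SA_perm {n : ℕ} (u : Fin n → ℝ) (σ : Equiv.Perm (Fin n)) :
    (SA (u ∘ σ)).det = (SA u).det := by
  have e : SA (u ∘ σ) = (SA u).submatrix σ σ := rfl
  rw [e, Matrix.det_submatrix_equiv_self]

theorem SA_congr {n : ℕ} {u v : Fin n → ℝ} (h : ∀ i j, u i - u j = v i - v j) : SA u = SA v := by
  ext i j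
  simp only [SA, Matrix.of_apply, h i j]

theorem SA_neg {n : ℕ} {u v : Fin n → ℝ} (h : ∀ i j, u i - u j = -(v i - v j)) : SA u = SA v := by
  ext i j
  simp only [SA, Matrix.of_apply, h i j, mul_neg, Real.sinc_neg]

theorem snoc_perm {n : ℕ} (u : Fin n → ℝ) (c : ℝ) (σ : Equiv.Perm (Fin n)) :
    (SA (Fin.snoc (u ∘ σ) c : Fin (n + 1) → ℝ)).det =
      (SA (Fin.snoc u c : Fin (n + 1) → ℝ)).det := by
  set τ : Equiv.Perm (Fin (n + 1)) :=
    ((finSuccEquivLast (n := n)).trans (Equiv.optionCongr σ)).trans finSuccEquivLast.symm with hτ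
  have e : (Fin.snoc (u ∘ σ) c : Fin (n + 1) → ℝ) = (Fin.snoc u c : Fin (n + 1) → ℝ) ∘ τ := by
    funext i
    refine Fin.lastCases ?_ (fun i => ?_) i
    · have : τ (Fin.last n) = Fin.last n := by
        rw [hτ, Equiv.trans_apply, Equiv.trans_apply, finSuccEquivLast_last]
        exact finSuccEquivLast_symm_none
      rw [Function.comp_apply, this, Fin.snoc_last, Fin.snoc_last]
    · have : τ (Fin.castSucc i) = Fin.castSucc (σ i) := by
        rw [hτ, Equiv.trans_apply, Equiv.trans_apply, finSuccEquivLast_castSucc]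
        exact finSuccEquivLast_symm_some _
      rw [Function.comp_apply, this, Fin.snoc_castSucc, Fin.snoc_castSucc, Function.comp_apply]
  rw [e, SA_perm]

theorem cons_snoc_det {n : ℕ} (u : Fin n → ℝ) (c : ℝ) :
    (SA (Fin.cons c u : Fin (n + 1) → ℝ)).det = (SA (Fin.snoc u c : Fin (n + 1) → ℝ)).det := by
  have e : (Fin.snoc u c : Fin (n + 1) → ℝ) = (Fin.cons c u : Fin (n + 1) → ℝ) ∘ finRotate _ :=
    Fin.snoc_eq_cons_rotate u c
  rw [e, SA_perm]

/-- the reflection of the cube -/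
theorem refl_int (n : ℕ) (s : ℝ) (g : (Fin n → ℝ) → ℝ) :
    ∫ u in Q n s, g (fun i => s - u i) = ∫ u in Q n s, g u := by
  have hmp : MeasurePreserving (fun u : Fin n → ℝ => (fun _ => s) - u) volume volume :=
    Measure.measurePreserving_sub_left volume (fun _ => s)
  have hemb : MeasurableEmbedding (fun u : Fin n → ℝ => (fun _ => s) - u) :=
    (MeasurableEquiv.subLeft (fun _ : Fin n => s)).measurableEmbedding
  have h := hmp.setIntegral_preimage_emb hemb g (Q n s)
  have e : (fun u : Fin n → ℝ => (fun _ => s) - u) ⁻¹' Q n s = Q n s := by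
    ext u
    rw [Set.mem_preimage, mem_Q, mem_Q]
    refine forall_congr' fun i => ?_
    rw [Pi.sub_apply]
    constructor
    · rintro ⟨h1, h2⟩
      exact ⟨by linarith, by linarith⟩
    · rintro ⟨h1, h2⟩
      exact ⟨by linarith, by linarith⟩
  rw [e] at h
  exact h

theorem cons_refl {n : ℕ} (t : ℝ) (u : Fin n → ℝ) :
    (SA (Fin.cons t (fun i => t - u i) : Fin (n + 1) → ℝ)).det =
      (SA (Fin.snoc u 0 : Fin (n + 1) → ℝ)).det := by
  rw [← cons_snoc_det u 0]
  congr 1
  refine SA_neg fun i j => ?_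
  refine Fin.cases ?_ (fun i => ?_) i
  · refine Fin.cases ?_ (fun j => ?_) j
    · simp
    · simp
  · refine Fin.cases ?_ (fun j => ?_) j
    · simp
    · simp

theorem cons_int (n : ℕ) (t : ℝ) :
    ∫ v in Q n t, (SA (Fin.cons t v : Fin (n + 1) → ℝ)).det = ib n t := by
  rw [← refl_int n t fun v => (SA (Fin.cons t v : Fin (n + 1) → ℝ)).det]
  unfold ib
  refine setIntegral_congr_fun (Q_meas n t) fun u _ => ?_
  exact cons_refl t u

theorem ia_succ (j : ℕ) {s : ℝ} (hs : 0 ≤ s) : ia (j + 1) s = (j + 1) * ∫ t in (0 : ℝ)..s, ib j t := by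
  unfold ia
  rw [cube_max j hs (h := fun u => (SA u).det) (SA_cont continuous_id) fun i u => SA_perm u _]
  congr 1
  refine intervalIntegral.integral_congr fun t _ => ?_
  exact cons_int j t

theorem ib_succ (j : ℕ) {s : ℝ} (hs : 0 ≤ s) : ib (j + 1) s = (j + 1) * ∫ t in (0 : ℝ)..s, ic j t := by
  unfold ib
  rw [cube_max j hs (SA_cont snoc_cont) fun i u => snoc_perm u 0 _]
  rfl

theorem Q_zero_int (s : ℝ) (g : (Fin 0 → ℝ) → ℝ) : ∫ u in Q 0 s, g u = g 0 := by
  have e : Q 0 s = Set.univ := by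
    ext u
    rw [mem_Q]
    simp
  rw [e, setIntegral_univ]
  have h1 : ∀ u : Fin 0 → ℝ, g u = g 0 := fun u => by rw [Subsingleton.elim u 0]
  simp_rw [h1]
  have h2 := Q_vol 0 (s := 1) zero_le_one
  have e1 : Q 0 1 = Set.univ := by
    ext u
    rw [mem_Q]
    simp
  rw [e1] at h2
  rw [integral_const, h2, pow_zero, one_smul]

theorem ia_zero (s : ℝ) : ia 0 s = 1 := by
  unfold ia
  rw [Q_zero_int]
  exact Matrix.det_isEmpty

theorem ib_zero (s : ℝ) : ib 0 s = 1 := by
  unfold ib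
  rw [Q_zero_int]
  have h : SA (Fin.snoc (0 : Fin 0 → ℝ) 0 : Fin (0 + 1) → ℝ) = 1 := by
    ext i j
    have hi : i = 0 := Fin.eq_zero i
    have hj : j = 0 := Fin.eq_zero j
    rw [hi, hj]
    simp [SA]
  rw [h, Matrix.det_one]

theorem ib_cont (j : ℕ) : ContinuousOn (ib j) (Set.Ioi 0) := by
  refine cube_cont j (g := fun _ u => (SA (Fin.snoc u 0 : Fin (j + 1) → ℝ)).det) ?_
  exact (SA_cont snoc_cont).comp continuous_snd

theorem ia_cont (j : ℕ) : ContinuousOn (ia j) (Set.Ioi 0) := by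
  refine cube_cont j (g := fun _ u => (SA u).det) ?_
  exact (SA_cont continuous_id).comp continuous_snd

theorem ic_cont (j : ℕ) : ContinuousOn (ic j) (Set.Ioi 0) := by
  refine cube_cont j (g := fun s u =>
    (SA (Fin.snoc (Fin.cons s u : Fin (j + 1) → ℝ) 0 : Fin (j + 2) → ℝ)).det) ?_
  refine SA_cont (f := fun p : ℝ × (Fin j → ℝ) =>
    (Fin.snoc (Fin.cons p.1 p.2 : Fin (j + 1) → ℝ) 0 : Fin (j + 2) → ℝ)) ?_
  refine snoc_cont.comp (f := fun p : ℝ × (Fin j → ℝ) => (Fin.cons p.1 p.2 : Fin (j + 1) → ℝ)) ?_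
  refine continuous_pi fun i => ?_
  refine Fin.cases ?_ (fun i => ?_) i
  · simp only [Fin.cons_zero]
    exact continuous_fst
  · simp only [Fin.cons_succ]
    exact (continuous_apply i).comp continuous_snd

theorem ia_adm : Adm ia := ⟨fun j _ hs => cube_le j hs.le fun _ => SA_det_abs _, ia_cont⟩

theorem ib_adm : Adm ib := ⟨fun j _ hs => cube_le j hs.le fun _ => SA_det_abs _, ib_cont⟩

theorem ic_adm : Adm ic := ⟨fun j _ hs => cube_le j hs.le fun _ => SA_det_abs _, ic_cont⟩

theorem ib_nonneg (j : ℕ) (s : ℝ) : 0 ≤ ib j s :=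
  setIntegral_nonneg (Q_meas j s) fun _ _ => SA_det_nonneg _

theorem ib_SI (j : ℕ) (s : ℝ) : SI j 0 (fun _ => s) = ib j s := rfl

/-- the Fredholm determinant of the sine kernel on `(0, s)` -/
noncomputable def EE (s : ℝ) : ℝ := S ia s

/-- the probability that a gap is larger than `s` -/
noncomputable def GG (s : ℝ) : ℝ := S ib s

/-- the Gaudin density -/
noncomputable def PP (s : ℝ) : ℝ := S ic s

theorem EE_deriv {s : ℝ} (hs : 0 < s) : HasDerivAt EE (-GG s) s :=
  S_deriv ib_adm (fun s _ => ia_zero s) (fun j _ hs => ia_succ j hs.le) hs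

theorem GG_deriv {s : ℝ} (hs : 0 < s) : HasDerivAt GG (-PP s) s :=
  S_deriv ic_adm (fun s _ => ib_zero s) (fun j _ hs => ib_succ j hs.le) hs

theorem EE_deriv2 {s : ℝ} (hs : 0 < s) : deriv (deriv EE) s = PP s := by
  have h1 : deriv EE =ᶠ[𝓝 s] fun s => -GG s := by
    filter_upwards [Ioi_mem_nhds hs] with x hx
    exact (EE_deriv hx).deriv
  rw [h1.deriv_eq]
  have h2 := (GG_deriv hs).neg.deriv
  rw [neg_neg] at h2
  exact h2

theorem PP_cont : ContinuousOn PP (Set.Ioi 0) := S_cont ic_adm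

theorem GG_cont {s : ℝ} (hs : 0 < s) : ContinuousAt GG s := (GG_deriv hs).continuousAt

theorem int_PP {a b : ℝ} (ha : 0 < a) (hab : a ≤ b) :
    ∫ s in a..b, deriv (deriv EE) s = GG a - GG b := by
  have hpos : ∀ x ∈ Set.uIcc a b, 0 < x := fun x hx => by
    rw [Set.uIcc_of_le hab] at hx
    linarith [hx.1]
  rw [intervalIntegral.integral_congr fun x hx => EE_deriv2 (hpos x hx)]
  have h := intervalIntegral.integral_eq_sub_of_hasDerivAt (f := GG) (f' := fun x => -PP x) (a := a)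
    (b := b) (fun x hx => GG_deriv (hpos x hx)) ?_
  · rw [intervalIntegral.integral_neg] at h
    linarith
  · refine ContinuousOn.intervalIntegrable ?_
    exact (PP_cont.mono fun x hx => hpos x hx).neg

end Q241.GL
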