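import Pool.Agent.Q241.GL.C
import Pool.Agent.Q241.KL.D

/-! # From the correlations to the gaps -/

set_option autoImplicit false

namespace Q241.GL

open Finset Filter Topology MeasureTheory
open Q241.KL (SA SI SA_det_nonneg SA_det_le SA_det_abs SA_cont snoc_cont E cnt w nb mem_E mem_nb
  E_desc Fam Le)

variable {ι : Type*} [DecidableEq ι]

open Classical in
/-- the number of other points in `[x j, x j + s]` -/
noncomputable def mr (J : Finset ι) (x : ι → ℝ) (s : ℝ) (j : ι) : ℕ :=
  (J.filter fun i => i ≠ j ∧ 0 ≤ x i - x j ∧ x i - x j ≤ s).card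

theorem E_desc' (J : Finset ι) (x : ι → ℝ) (j : ι) (k : ℕ) (s : ℝ) :
    (E J x j k (fun _ => 0) (fun _ => s)).card = (mr J x s j).descFactorial k := by
  classical
  set x' : ι → ℝ := Function.update x j (x j + s / 2) with hx'
  have hj : x' j = x j + s / 2 := Function.update_self _ _ _
  have hi : ∀ i, i ≠ j → x' i = x i := fun i hi => Function.update_of_ne hi _ _
  have e1 : E J x j k (fun _ => 0) (fun _ => s) = E J x' j k (fun _ => -(s / 2)) (fun _ => s / 2) := by
    ext t
    rw [mem_E, mem_E]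
    constructor
    · rintro ⟨h1, h2, h3, h4⟩
      refine ⟨h1, h2, h3, fun l => ?_⟩
      rw [hj, hi _ (h3 l)]
      have := h4 l
      constructor <;> linarith [this.1, this.2]
    · rintro ⟨h1, h2, h3, h4⟩
      refine ⟨h1, h2, h3, fun l => ?_⟩
      have := h4 l
      rw [hj, hi _ (h3 l)] at this
      constructor <;> linarith [this.1, this.2]
  have e2 : mr J x s j = w J x' (s / 2) j := by
    unfold mr w nb
    congr 1
    ext i
    rw [mem_filter, mem_filter]
    refine and_congr_right fun _ => and_congr_right fun h => ?_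
    rw [hj, hi _ h, abs_le]
    constructor
    · rintro ⟨h1, h2⟩
      constructor <;> linarith
    · rintro ⟨h1, h2⟩
      constructor <;> linarith
  rw [e1, E_desc, e2]

/-- truncated inclusion-exclusion -/
noncomputable def alt (R n : ℕ) : ℝ := ∑ i ∈ range (R + 1), (-1) ^ i * (n.choose i : ℝ)

/-- the indicator of `n = 0` -/
noncomputable def zi (n : ℕ) : ℝ := if n = 0 then 1 else 0

theorem alt_zero (R : ℕ) : alt R 0 = 1 := by
  unfold alt
  rw [Finset.sum_range_succ', Finset.sum_eq_zero]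
  · simp
  · intro i _
    simp

theorem alt_succ (R n : ℕ) : alt R (n + 1) = (-1) ^ R * (n.choose R : ℝ) := by
  have h := Int.alternating_sum_range_choose_eq_choose (n := n) (m := R)
  unfold alt
  have h2 := congrArg (fun z : ℤ => (z : ℝ)) h
  push_cast at h2
  exact h2

theorem zi_le {R : ℕ} (hR : Even R) (n : ℕ) : zi n ≤ alt R n := by
  rcases n with _ | n
  · rw [alt_zero]
    simp [zi]
  · rw [alt_succ, hR.neg_one_pow, one_mul]
    simp [zi]

theorem le_zi {R : ℕ} (hR : Odd R) (n : ℕ) : alt R n ≤ zi n := by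
  rcases n with _ | n
  · rw [alt_zero]
    simp [zi]
  · rw [alt_succ, hR.neg_one_pow]
    simp [zi]

/-- the normalised number of points which are not followed by a point at distance at most `s` -/
noncomputable def hol (F : Fam ι) (s T : ℝ) : ℝ := (∑ j ∈ F.J T, zi (mr (F.J T) (F.x T) s j)) / F.X T

/-- the truncated series for the family -/
noncomputable def Bf (F : Fam ι) (R : ℕ) (s T : ℝ) : ℝ :=
  ∑ i ∈ range (R + 1), (-1) ^ i / (i.factorial : ℝ) * F.n i (fun _ => 0) (fun _ => s) T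

theorem Bf_eq (F : Fam ι) (R : ℕ) (s T : ℝ) :
    Bf F R s T = (∑ j ∈ F.J T, alt R (mr (F.J T) (F.x T) s j)) / F.X T := by
  unfold Bf alt Fam.n cnt
  rw [Finset.sum_comm, Finset.sum_div]
  refine Finset.sum_congr rfl fun i _ => ?_
  rw [← mul_div_assoc]
  congr 1
  push_cast
  rw [Finset.mul_sum]
  refine Finset.sum_congr rfl fun j _ => ?_
  rw [E_desc', Nat.descFactorial_eq_factorial_mul_choose]
  push_cast
  have : (i.factorial : ℝ) ≠ 0 := by exact_mod_cast i.factorial_ne_zero
  field_simp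

theorem hol_le {F : Fam ι} {R : ℕ} (hR : Even R) (s : ℝ) {T : ℝ} (hX : 0 < F.X T) :
    hol F s T ≤ Bf F R s T := by
  rw [Bf_eq]
  exact div_le_div_of_nonneg_right (Finset.sum_le_sum fun j _ => zi_le hR _) hX.le

theorem le_hol {F : Fam ι} {R : ℕ} (hR : Odd R) (s : ℝ) {T : ℝ} (hX : 0 < F.X T) :
    Bf F R s T ≤ hol F s T := by
  rw [Bf_eq]
  exact div_le_div_of_nonneg_right (Finset.sum_le_sum fun j _ => le_zi hR _) hX.le

theorem n_zero (F : Fam ι) (a b : Fin 0 → ℝ) (T : ℝ) : F.n 0 a b T = ((F.J T).card : ℝ) / F.X T := by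
  unfold Fam.n cnt
  have h : ∀ j ∈ F.J T, (E (F.J T) (F.x T) j 0 a b).card = 1 := by
    intro j _
    rw [card_eq_one]
    refine ⟨Fin.elim0, ?_⟩
    ext t
    rw [mem_E, mem_singleton]
    constructor
    · intro _
      funext l
      exact l.elim0
    · intro _
      exact ⟨fun l => l.elim0, fun l => l.elim0, fun l => l.elim0, fun l => l.elim0⟩
  rw [Finset.sum_congr rfl h]
  simp

/-- the truncated series of the sine process -/
noncomputable def Bs (R : ℕ) (s : ℝ) : ℝ := ∑ i ∈ range (R + 1), (-1) ^ i / (i.factorial : ℝ) * ib i s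

theorem Bf_lim (F : Fam ι) {R : ℕ} (h : ∀ i, 1 ≤ i → i ≤ R → F.Full SI i) {s : ℝ} (hs : 0 < s) :
    Tendsto (Bf F R s) atTop (𝓝 (Bs R s)) := by
  unfold Bf Bs
  refine tendsto_finsetSum _ fun i hi => Tendsto.const_mul _ ?_
  rw [mem_range] at hi
  rcases Nat.eq_zero_or_pos i with rfl | h0
  · rw [ib_zero]
    exact F.hJ.congr fun T => (n_zero F _ _ T).symm
  · have h1 := h i h0 (by omega) (fun _ => 0) (fun _ => s) (fun _ => hs)
    have e : SI i (fun _ => 0) (fun _ => s) = ib i s := rfl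
    rwa [e] at h1

theorem tail_term (R i : ℕ) {s : ℝ} (hs : 0 ≤ s) :
    s ^ (i + R) / ((i + R).factorial : ℝ) ≤ s ^ R / (R.factorial : ℝ) * (s ^ i / (i.factorial : ℝ)) := by
  rw [div_mul_div_comm, ← pow_add, add_comm R i]
  refine div_le_div_of_nonneg_left (by positivity) (by positivity) ?_
  have h1 : i.factorial * R.factorial ≤ (i + R).factorial :=
    Nat.le_of_dvd (Nat.factorial_pos _) (Nat.factorial_mul_factorial_dvd_factorial_add i R)
  rw [mul_comm (R.factorial : ℝ)]
  exact_mod_cast h1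

/-- the tail of the series -/
theorem Bs_GG {K R : ℕ} (hKR : R ≤ K + 1) {s : ℝ} (hs : 0 < s) :
    |Bs K s - GG s| ≤ s ^ R * Real.exp s / (R.factorial : ℝ) := by
  set f : ℕ → ℝ := fun j => (-1) ^ j / (j.factorial : ℝ) * ib j s with hf
  have hsum : Summable f := summ ib_adm hs
  have h1 : GG s = Bs K s + ∑' i, f (i + (K + 1)) := (hsum.sum_add_tsum_nat_add (K + 1)).symm
  set g : ℕ → ℝ := fun i => s ^ (i + R) / ((i + R).factorial : ℝ) with hg
  have hgs : Summable g := (summable_nat_add_iff R).mpr (exp_summable s)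
  have hg0 : ∀ i, 0 ≤ g i := fun i => by rw [hg]; positivity
  obtain ⟨d, hd⟩ := Nat.exists_eq_add_of_le hKR
  have h2 : |∑' i, f (i + (K + 1))| ≤ ∑' i, g i := by
    have h3 : Summable fun i => g (i + d) := (summable_nat_add_iff d).mpr hgs
    have h4 : ∀ i, ‖f (i + (K + 1))‖ ≤ g (i + d) := by
      intro i
      have := term_le ib_adm (i + (K + 1)) hs le_rfl
      have e : i + (K + 1) = i + d + R := by omega
      rw [hf, hg]
      dsimp only
      rw [e] at this ⊢
      exact this
    have h5 : ‖∑' i, f (i + (K + 1))‖ ≤ ∑' i, g (i + d) :=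
      tsum_of_norm_bounded h3.hasSum h4
    have h6 : ∑' i, g (i + d) ≤ ∑' i, g i := by
      rw [← hgs.sum_add_tsum_nat_add d]
      have : 0 ≤ ∑ i ∈ range d, g i := Finset.sum_nonneg fun i _ => hg0 i
      linarith
    exact h5.trans h6
  have h7 : ∑' i, g i ≤ s ^ R / (R.factorial : ℝ) * Real.exp s := by
    have h8 : Real.exp s = ∑' i : ℕ, s ^ i / (i.factorial : ℝ) := by
      rw [Real.exp_eq_exp_ℝ]
      exact (NormedSpace.expSeries_div_hasSum_exp s).tsum_eq.symm
    rw [h8, ← tsum_mul_left]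
    exact hgs.tsum_le_tsum (fun i => tail_term R i hs.le) ((exp_summable s).mul_left _)
  rw [h1, sub_add_cancel_left, abs_neg]
  calc _ ≤ _ := h2
    _ ≤ _ := h7
    _ = _ := by ring

/-- **the gap law from finitely many levels** -/
theorem hol_near (F : Fam ι) {R : ℕ} (hR : 1 ≤ R) (h : ∀ i, 1 ≤ i → i ≤ R → F.Full SI i) {s : ℝ}
    (hs : 0 < s) {ε : ℝ} (hε : 0 < ε) :
    ∀ᶠ T in atTop, |hol F s T - GG s| ≤ s ^ R * Real.exp s / (R.factorial : ℝ) + ε := by
  obtain ⟨R', rfl⟩ : ∃ R', R = R' + 1 := ⟨R - 1, by omega⟩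
  have h1 := Bf_lim F h hs
  have h2 := Bf_lim F (R := R') (fun i h1 h2 => h i h1 (by omega)) hs
  have h3 := Bs_GG (K := R' + 1) (R := R' + 1) (by omega) hs
  have h4 := Bs_GG (K := R') (R := R' + 1) le_rfl hs
  have hX : ∀ᶠ T in atTop, 0 < F.X T := F.hX.eventually_gt_atTop 0
  filter_upwards [Metric.tendsto_nhds.1 h1 ε hε, Metric.tendsto_nhds.1 h2 ε hε, hX] with T b1 b2 b3
  rw [Real.dist_eq] at b1 b2
  obtain ⟨c1, c2⟩ := abs_lt.1 b1
  obtain ⟨c3, c4⟩ := abs_lt.1 b2
  obtain ⟨d1, d2⟩ := abs_le.1 h3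
  obtain ⟨d3, d4⟩ := abs_le.1 h4
  rw [abs_le]
  rcases Nat.even_or_odd R' with hev | hodd
  · have e1 := hol_le (F := F) hev s b3
    have e2 := le_hol (F := F) (hev.add_one) s b3
    constructor <;> linarith
  · have e1 := le_hol (F := F) hodd s b3
    have e2 := hol_le (F := F) (hodd.add_one) s b3
    constructor <;> linarith

end Q241.GL
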