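import Pool.Agent.Q241.GL.D
import Pool.Agent.Q241.KL.Fin2
import Pool.Agent.Q241.NN.C

/-! # The labelled zeros and the ordered ordinates -/

set_option autoImplicit false

namespace Q241.GL

open Finset Filter Topology MeasureTheory
open Q241.KL (SI JZ mem_JZ xz FZ)
open Q241.NN (xx xx_nonneg ord_lim N_le N_ratio NZ_ord)
open Pool.Agent.Y744
open Pool.Agent.Y763.AH
open Pool.Agent.Y749.Rig (nT nT_pos one_lt_log)
open SG (ord NZ)

/-- two finite families of numbers with the same counting function -/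
lemma fin_conv {ι κ : Type*} (S : Finset ι) (v : ι → ℝ) (K : Finset κ) (o : κ → ℝ)
    (h : ∀ x : ℝ, (S.filter (fun s => v s ≤ x)).card = (K.filter (fun n => o n ≤ x)).card)
    (f : ℝ → ℝ) : ∑ s ∈ S, f (v s) = ∑ n ∈ K, f (o n) := by
  classical
  set V : Finset ℝ := S.image v ∪ K.image o with hV
  have hvV : ∀ s ∈ S, v s ∈ V := fun s hs =>
    Finset.mem_union_left _ (Finset.mem_image_of_mem v hs)
  have hoV : ∀ n ∈ K, o n ∈ V := fun n hn =>
    Finset.mem_union_right _ (Finset.mem_image_of_mem o hn)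
  have key : ∀ u : ℝ, (S.filter (fun s => v s = u)).card = (K.filter (fun n => o n = u)).card := by
    intro u
    obtain ⟨x, hxu, hx⟩ : ∃ x : ℝ, x < u ∧ ∀ z ∈ V, z < u → z ≤ x := by
      by_cases hne : (V.filter (fun z => z < u)).Nonempty
      · refine ⟨(V.filter (fun z => z < u)).max' hne, ?_, ?_⟩
        · have := Finset.max'_mem _ hne
          rw [Finset.mem_filter] at this
          exact this.2
        · intro z hz hzu
          exact Finset.le_max' _ _ (Finset.mem_filter.2 ⟨hz, hzu⟩)
      · refine ⟨u - 1, by linarith, fun z hz hzu => ?_⟩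
        exact absurd ⟨z, Finset.mem_filter.2 ⟨hz, hzu⟩⟩ hne
    have e1 : S.filter (fun s => v s ≤ u) = S.filter (fun s => v s ≤ x) ∪ S.filter (fun s => v s = u) := by
      ext s
      simp only [Finset.mem_filter, Finset.mem_union]
      constructor
      · rintro ⟨h1, h2⟩
        rcases h2.lt_or_eq with h3 | h3
        · exact Or.inl ⟨h1, hx _ (hvV s h1) h3⟩
        · exact Or.inr ⟨h1, h3⟩
      · rintro (⟨h1, h2⟩ | ⟨h1, h2⟩)
        · exact ⟨h1, h2.trans hxu.le⟩
        · exact ⟨h1, h2.le⟩
    have e2 : K.filter (fun n => o n ≤ u) = K.filter (fun n => o n ≤ x) ∪ K.filter (fun n => o n = u) := by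
      ext s
      simp only [Finset.mem_filter, Finset.mem_union]
      constructor
      · rintro ⟨h1, h2⟩
        rcases h2.lt_or_eq with h3 | h3
        · exact Or.inl ⟨h1, hx _ (hoV s h1) h3⟩
        · exact Or.inr ⟨h1, h3⟩
      · rintro (⟨h1, h2⟩ | ⟨h1, h2⟩)
        · exact ⟨h1, h2.trans hxu.le⟩
        · exact ⟨h1, h2.le⟩
    have d1 : Disjoint (S.filter (fun s => v s ≤ x)) (S.filter (fun s => v s = u)) := by
      rw [Finset.disjoint_left]
      intro s hs hs'
      rw [Finset.mem_filter] at hs hs'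
      linarith [hs.2, hs'.2]
    have d2 : Disjoint (K.filter (fun n => o n ≤ x)) (K.filter (fun n => o n = u)) := by
      rw [Finset.disjoint_left]
      intro s hs hs'
      rw [Finset.mem_filter] at hs hs'
      linarith [hs.2, hs'.2]
    have h1 := h u
    rw [e1, e2, Finset.card_union_of_disjoint d1, Finset.card_union_of_disjoint d2, h x] at h1
    omega
  have l1 : ∑ s ∈ S, f (v s) = ∑ u ∈ V, ((S.filter (fun s => v s = u)).card : ℝ) * f u := by
    rw [← Finset.sum_fiberwise_of_maps_to hvV]
    refine Finset.sum_congr rfl fun u _ => ?_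
    rw [Finset.sum_congr rfl fun s hs => by rw [(Finset.mem_filter.1 hs).2], sum_const,
      nsmul_eq_mul]
  have l2 : ∑ n ∈ K, f (o n) = ∑ u ∈ V, ((K.filter (fun n => o n = u)).card : ℝ) * f u := by
    rw [← Finset.sum_fiberwise_of_maps_to hoV]
    refine Finset.sum_congr rfl fun u _ => ?_
    rw [Finset.sum_congr rfl fun s hs => by rw [(Finset.mem_filter.1 hs).2], sum_const,
      nsmul_eq_mul]
  rw [l1, l2]
  exact Finset.sum_congr rfl fun u _ => by rw [key u]

theorem card_JZ_NZ (T : ℝ) : (JZ T).card = NZ T := by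
  have hNN : NZ T = H370.NN riemannZeta 0 T := by
    unfold SG.NZ H370.NN
    refine finsum_mem_congr ?_ fun s _ => rfl
    ext s
    simp only [H370.zset, Set.mem_ofPred_eq]
    tauto
  have h := Q241.KL.card_JZ T
  rw [hNN]
  exact_mod_cast h

theorem filter_JZ (T x : ℝ) : ((JZ T).filter fun p => p.1.im ≤ x).card = NZ (min x T) := by
  rw [← card_JZ_NZ]
  congr 1
  ext p
  rw [mem_filter, mem_JZ, mem_JZ, mem_Zt, mem_Zt]
  constructor
  · rintro ⟨⟨⟨h1, h2, h3, h4, h5⟩, h6⟩, h7⟩
    exact ⟨⟨h1, h2, h3, le_min h7 h4, h5⟩, h6⟩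
  · rintro ⟨⟨h1, h2, h3, h4, h5⟩, h6⟩
    rw [le_min_iff] at h4
    exact ⟨⟨⟨h1, h2, h3, h4.2, h5⟩, h6⟩, h4.1⟩

theorem filter_ord (T x : ℝ) : ((Finset.Ioc 0 (NZ T)).filter fun n => ord n ≤ x).card =
    NZ (min x T) := by
  have h : (Finset.Ioc 0 (NZ T)).filter (fun n => ord n ≤ x) = Finset.Ioc 0 (NZ (min x T)) := by
    ext n
    rw [mem_filter, mem_Ioc, mem_Ioc]
    constructor
    · rintro ⟨⟨h1, h2⟩, h3⟩
      refine ⟨h1, ?_⟩
      rw [← SG.ord_le_iff h1, le_min_iff]
      exact ⟨h3, (SG.ord_le_iff h1 T).2 h2⟩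
    · rintro ⟨h1, h2⟩
      rw [← SG.ord_le_iff h1, le_min_iff] at h2
      exact ⟨⟨h1, (SG.ord_le_iff h1 T).1 h2.2⟩, h2.1⟩
  rw [h, Nat.card_Ioc, Nat.sub_zero]

/-- **sums over the zeros as sums over the indices** (no hypothesis) -/
theorem sum_ord (T : ℝ) (f : ℝ → ℝ) :
    ∑ p ∈ JZ T, f p.1.im = ∑ n ∈ Finset.Ioc 0 (NZ T), f (ord n) :=
  fin_conv (JZ T) (fun p => p.1.im) (Finset.Ioc 0 (NZ T)) ord
    (fun x => by rw [filter_JZ, filter_ord]) f

/-- the indicator of `0 ≤ (y' - y) log T / 2π ≤ s` -/
noncomputable def wi (T s y y' : ℝ) : ℝ :=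
  if 0 ≤ (y' - y) * Real.log T / (2 * Real.pi) ∧ (y' - y) * Real.log T / (2 * Real.pi) ≤ s then 1
  else 0

theorem wi_nonneg (T s y y' : ℝ) : 0 ≤ wi T s y y' := by
  unfold wi
  split_ifs <;> norm_num

/-- the number of indices in a window -/
noncomputable def MM (T s y : ℝ) : ℝ := ∑ n ∈ Finset.Ioc 0 (NZ T), wi T s y (ord n)

/-- the indicator of `M = 1` -/
noncomputable def ki (M : ℝ) : ℝ := if M = 1 then 1 else 0

theorem zi_ki {T s : ℝ} (hs : 0 ≤ s) {p : ℂ × ℕ} (hp : p ∈ JZ T) :
    zi (mr (JZ T) (xz T) s p) = ki (MM T s p.1.im) := by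
  classical
  have h1 : MM T s p.1.im = (mr (JZ T) (xz T) s p : ℝ) + 1 := by
    unfold MM
    rw [← sum_ord T (fun y => wi T s p.1.im y), ← Finset.sum_erase_add _ _ hp]
    congr 1
    · unfold mr
      rw [Finset.card_filter]
      push_cast
      rw [← Finset.sum_erase_add _ _ hp]
      have : (if p ≠ p ∧ 0 ≤ xz T p - xz T p ∧ xz T p - xz T p ≤ s then (1 : ℝ) else 0) = 0 := by
        rw [if_neg]
        rintro ⟨h, -⟩
        exact h rfl
      rw [this, add_zero]
      refine Finset.sum_congr rfl fun q hq => ?_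
      have hq' : q ≠ p := Finset.ne_of_mem_erase hq
      have e : xz T q - xz T p = (q.1.im - p.1.im) * Real.log T / (2 * Real.pi) := by
        unfold xz
        ring
      rw [e]
      unfold wi
      simp only [hq', ne_eq, not_false_eq_true, true_and]
    · unfold wi
      rw [if_pos]
      constructor
      · simp
      · simpa using hs
  rw [h1]
  unfold zi ki
  by_cases h : mr (JZ T) (xz T) s p = 0
  · rw [if_pos h, if_pos (by rw [h]; simp)]
  · rw [if_neg h, if_neg]
    intro hc
    apply h
    have : (mr (JZ T) (xz T) s p : ℝ) = 0 := by linarith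
    exact_mod_cast this

theorem hol_idx {T s : ℝ} (hs : 0 ≤ s) :
    hol FZ s T = (∑ n ∈ Finset.Ioc 0 (NZ T), ki (MM T s (ord n))) / nT T := by
  have h1 : hol FZ s T = (∑ p ∈ JZ T, zi (mr (JZ T) (xz T) s p)) / nT T := rfl
  rw [h1, Finset.sum_congr rfl fun p hp => zi_ki hs hp, sum_ord T fun y => ki (MM T s y)]

/-- the number of the large gaps up to height `T`, normalised with `log T` -/
noncomputable def Gt (T s : ℝ) : ℝ :=
  (((Finset.Ioc 0 (NZ T - 1)).filter fun n => s < xx T 1 n).card : ℝ) / nT T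

/-- the number of the repeated ordinates -/
noncomputable def Rp (T : ℝ) : ℝ :=
  (((Finset.Ioc 0 (NZ T - 1)).filter fun n => ord (n + 1) = ord n).card : ℝ) / nT T

theorem hol_le_Gt {T s : ℝ} (hT : 10 ≤ T) (hs : 0 ≤ s) : hol FZ s T ≤ Gt T s + 1 / nT T := by
  classical
  have hn := nT_pos hT
  rw [hol_idx hs]
  unfold Gt
  rw [← add_div]
  refine div_le_div_of_nonneg_right ?_ hn.le
  have h1 : ∀ n ∈ Finset.Ioc 0 (NZ T), ki (MM T s (ord n)) ≤
      (if s < xx T 1 n ∧ n ≤ NZ T - 1 then 1 else 0) + (if n = NZ T then 1 else 0) := by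
    intro n hn
    rw [mem_Ioc] at hn
    by_cases h2 : n = NZ T
    · rw [if_pos h2]
      have : ki (MM T s (ord n)) ≤ 1 := by
        unfold ki
        split_ifs <;> norm_num
      have h3 : (0 : ℝ) ≤ if s < xx T 1 n ∧ n ≤ NZ T - 1 then 1 else 0 := by
        split_ifs <;> norm_num
      linarith
    · rw [if_neg h2, add_zero]
      by_cases h3 : MM T s (ord n) = 1
      · rw [ki, if_pos h3, if_pos]
        refine ⟨?_, by omega⟩
        by_contra hc
        push Not at hc
        have hm : n + 1 ∈ Finset.Ioc 0 (NZ T) := by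
          rw [mem_Ioc]
          omega
        have hm' : n ∈ Finset.Ioc 0 (NZ T) := by
          rw [mem_Ioc]
          omega
        have h4 : wi T s (ord n) (ord (n + 1)) = 1 := by
          unfold wi
          rw [if_pos]
          exact ⟨xx_nonneg (by linarith) hn.1, hc⟩
        have h5 : wi T s (ord n) (ord n) = 1 := by
          unfold wi
          rw [if_pos]
          constructor
          · simp
          · simpa using hs
        have h6 : ∑ i ∈ ({n, n + 1} : Finset ℕ), wi T s (ord n) (ord i) ≤ MM T s (ord n) := by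
          unfold MM
          refine Finset.sum_le_sum_of_subset_of_nonneg ?_ fun i _ _ => wi_nonneg _ _ _ _
          intro i hi
          rw [mem_insert, mem_singleton] at hi
          rcases hi with rfl | rfl
          · exact hm'
          · exact hm
        rw [Finset.sum_pair (by omega), h4, h5, h3] at h6
        norm_num at h6
      · rw [ki, if_neg h3]
        split_ifs <;> norm_num
  refine (Finset.sum_le_sum h1).trans ?_
  rw [Finset.sum_add_distrib]
  have h2 : ∑ n ∈ Finset.Ioc 0 (NZ T), (if s < xx T 1 n ∧ n ≤ NZ T - 1 then (1 : ℝ) else 0) =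
      (((Finset.Ioc 0 (NZ T - 1)).filter fun n => s < xx T 1 n).card : ℝ) := by
    rw [Finset.sum_boole]
    congr 2
    ext n
    rw [mem_filter, mem_filter, mem_Ioc, mem_Ioc]
    constructor
    · rintro ⟨⟨h1, h2⟩, h3, h4⟩
      exact ⟨⟨h1, h4⟩, h3⟩
    · rintro ⟨⟨h1, h2⟩, h3⟩
      exact ⟨⟨h1, by omega⟩, h3, h2⟩
  have h3 : ∑ n ∈ Finset.Ioc 0 (NZ T), (if n = NZ T then (1 : ℝ) else 0) ≤ 1 := by
    rw [Finset.sum_ite_eq']
    split_ifs <;> norm_num
  linarith

theorem Gt_le_hol {T s : ℝ} (hT : 10 ≤ T) (hs : 0 ≤ s) : Gt T s ≤ hol FZ s T + Rp T := by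
  classical
  have hn := nT_pos hT
  have hL : 0 < Real.log T := Real.log_pos (by linarith)
  have hpi := Real.pi_pos
  rw [hol_idx hs]
  unfold Gt Rp
  rw [← add_div]
  refine div_le_div_of_nonneg_right ?_ hn.le
  have e1 : (((Finset.Ioc 0 (NZ T - 1)).filter fun n => s < xx T 1 n).card : ℝ) =
      ∑ n ∈ Finset.Ioc 0 (NZ T - 1), if s < xx T 1 n then (1 : ℝ) else 0 :=
    (Finset.sum_boole _ _).symm
  have e2 : (((Finset.Ioc 0 (NZ T - 1)).filter fun n => ord (n + 1) = ord n).card : ℝ) =
      ∑ n ∈ Finset.Ioc 0 (NZ T - 1), if ord (n + 1) = ord n then (1 : ℝ) else 0 :=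
    (Finset.sum_boole _ _).symm
  -- a large gap: the ordinate is simple or repeats the previous one
  have h1 : ∀ n ∈ Finset.Ioc 0 (NZ T - 1), (if s < xx T 1 n then (1 : ℝ) else 0) ≤
      ki (MM T s (ord n)) + (if 2 ≤ n ∧ ord n = ord (n - 1) then 1 else 0) := by
    intro n hn
    rw [mem_Ioc] at hn
    have hki : 0 ≤ ki (MM T s (ord n)) := by
      unfold ki
      split_ifs <;> norm_num
    by_cases h2 : s < xx T 1 n
    · rw [if_pos h2]
      by_cases h3 : 2 ≤ n ∧ ord n = ord (n - 1)
      · rw [if_pos h3]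
        linarith
      · rw [if_neg h3, add_zero]
        have h4 : MM T s (ord n) = 1 := by
          unfold MM
          rw [Finset.sum_eq_single n]
          · unfold wi
            rw [if_pos]
            constructor
            · simp
            · simpa using hs
          · intro i hi hin
            rw [mem_Ioc] at hi
            unfold wi
            rw [if_neg]
            rintro ⟨h5, h6⟩
            rcases lt_or_gt_of_ne hin with h7 | h7
            · have h8 : ord i ≤ ord (n - 1) := SG.ord_mono hi.1 (by omega)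
              have h9 : ord (n - 1) ≤ ord n := SG.ord_mono (by omega) (by omega)
              have h10 : ord n ≤ ord i := by
                by_contra hc
                push Not at hc
                have : (ord i - ord n) * Real.log T / (2 * Real.pi) < 0 := by
                  refine div_neg_of_neg_of_pos ?_ (by positivity)
                  exact mul_neg_of_neg_of_pos (by linarith) hL
                linarith
              exact h3 ⟨by omega, by linarith⟩
            · have h8 : ord (n + 1) ≤ ord i := SG.ord_mono (by omega) (by omega)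
              have h9 : xx T 1 n ≤ (ord i - ord n) * Real.log T / (2 * Real.pi) := by
                unfold xx
                refine div_le_div_of_nonneg_right ?_ (by positivity)
                exact mul_le_mul_of_nonneg_right (by linarith) hL.le
              linarith
          · intro hni
            exact absurd (mem_Ioc.2 ⟨hn.1, by omega⟩) hni
        rw [ki, if_pos h4]
    · rw [if_neg h2]
      have : (0 : ℝ) ≤ if 2 ≤ n ∧ ord n = ord (n - 1) then 1 else 0 := by
        split_ifs <;> norm_num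
      linarith
  rw [e1]
  refine (Finset.sum_le_sum h1).trans ?_
  rw [Finset.sum_add_distrib]
  have h2 : ∑ n ∈ Finset.Ioc 0 (NZ T - 1), ki (MM T s (ord n)) ≤
      ∑ n ∈ Finset.Ioc 0 (NZ T), ki (MM T s (ord n)) := by
    refine Finset.sum_le_sum_of_subset_of_nonneg ?_ fun i _ _ => ?_
    · intro i hi
      rw [mem_Ioc] at hi ⊢
      omega
    · unfold ki
      split_ifs <;> norm_num
  have h3 : ∑ n ∈ Finset.Ioc 0 (NZ T - 1), (if 2 ≤ n ∧ ord n = ord (n - 1) then (1 : ℝ) else 0) ≤
      (((Finset.Ioc 0 (NZ T - 1)).filter fun n => ord (n + 1) = ord n).card : ℝ) := by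
    rw [Finset.sum_boole]
    norm_cast
    refine Finset.card_le_card_of_injOn (fun n => n - 1) ?_ ?_
    · intro n hn
      rw [mem_coe, mem_filter, mem_Ioc] at hn
      rw [mem_coe, mem_filter, mem_Ioc]
      obtain ⟨⟨h3, h4⟩, h5, h6⟩ := hn
      have e : n - 1 + 1 = n := by omega
      show (0 < n - 1 ∧ n - 1 ≤ NZ T - 1) ∧ ord (n - 1 + 1) = ord (n - 1)
      rw [e]
      exact ⟨⟨by omega, by omega⟩, h6⟩
    · intro n hn m hm hnm
      rw [mem_coe, mem_filter] at hn hm
      dsimp only at hnm
      omega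
  linarith

/-- repeated ordinates are neighbours at small distance -/
theorem Rp_le {T s : ℝ} (hT : 10 ≤ T) (hs : 0 ≤ s) : Rp T + hol FZ s T ≤ NZ T / nT T + 1 / nT T := by
  classical
  have hn := nT_pos hT
  have h1 := hol_le_Gt hT hs
  have h2 : Rp T + Gt T s ≤ NZ T / nT T := by
    unfold Rp Gt
    rw [← add_div]
    refine div_le_div_of_nonneg_right ?_ hn.le
    norm_cast
    rw [← Finset.card_union_of_disjoint]
    · refine (Finset.card_le_card (t := Finset.Ioc 0 (NZ T)) ?_).trans ?_
      · intro n hn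
        rw [mem_union, mem_filter, mem_filter, mem_Ioc] at hn
        rw [mem_Ioc]
        omega
      · rw [Nat.card_Ioc, Nat.sub_zero]
    · rw [Finset.disjoint_left]
      intro n h3 h4
      rw [mem_filter] at h3 h4
      have : xx T 1 n = 0 := by
        unfold xx
        rw [h3.2]
        simp
      linarith [h4.2]
  linarith

end Q241.GL
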