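import Pool.Agent.Q241.GL.E

/-! # The law of the gaps -/

set_option autoImplicit false

namespace Q241.GL

open Finset Filter Topology MeasureTheory
open Q241.KL (SI JZ mem_JZ xz FZ)
open Q241.NN (xx xx_nonneg ord_lim N_le N_ratio NZ_ord)
open Pool.Agent.Y763.AH
open Pool.Agent.Y749.Rig (nT nT_pos one_lt_log)
open SG (ord NZ)

/-- the error of the truncated series -/
noncomputable def err (r : ℕ) (s : ℝ) : ℝ := s ^ r * Real.exp s / (r.factorial : ℝ)

theorem err_nonneg (r : ℕ) {s : ℝ} (hs : 0 ≤ s) : 0 ≤ err r s := by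
  unfold err
  positivity

theorem err_cont (r : ℕ) : Continuous (err r) := by
  unfold err
  fun_prop

theorem err_lim (s : ℝ) : Tendsto (fun r => err r s) atTop (𝓝 0) := by
  have h := (FloorSemiring.tendsto_pow_div_factorial_atTop s).mul_const (Real.exp s)
  rw [zero_mul] at h
  refine h.congr fun r => ?_
  unfold err
  ring

theorem nT_tend : Tendsto nT atTop atTop := Q241.KL.Xf_tend

theorem GG_small {s : ℝ} (hs : 0 < s) (hs1 : s ≤ 1) : 1 - 3 * s ≤ GG s := by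
  have h1 : GG s = 1 - ∫ t in (0 : ℝ)..s, S ic t :=
    S_prim ic_adm (fun s _ => ib_zero s) (fun j _ hs => ib_succ j hs.le) hs
  have h2 : ‖∫ t in (0 : ℝ)..s, S ic t‖ ≤ Real.exp s * |s - 0| := by
    refine intervalIntegral.norm_integral_le_of_norm_le_const fun t ht => ?_
    rw [Set.uIoc_of_le hs.le] at ht
    exact S_le ic_adm ht.1 ht.2
  rw [sub_zero, abs_of_pos hs, Real.norm_eq_abs] at h2
  have h3 : Real.exp s ≤ 3 := by
    have := Real.exp_one_lt_d9
    have h4 : Real.exp s ≤ Real.exp 1 := Real.exp_le_exp.2 hs1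
    linarith
  have h4 := (abs_le.1 h2).2
  have h5 : Real.exp s * s ≤ 3 * s := mul_le_mul_of_nonneg_right h3 hs.le
  linarith

theorem err_small {r : ℕ} (hr : 1 ≤ r) {s : ℝ} (hs : 0 < s) (hs1 : s ≤ 1) : err r s ≤ 3 * s := by
  unfold err
  have h3 : Real.exp s ≤ 3 := by
    have := Real.exp_one_lt_d9
    have h4 : Real.exp s ≤ Real.exp 1 := Real.exp_le_exp.2 hs1
    linarith
  have h4 : s ^ r ≤ s := by
    calc s ^ r ≤ s ^ 1 := pow_le_pow_of_le_one hs.le hs1 hr
      _ = s := pow_one s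
  have h5 : (1 : ℝ) ≤ (r.factorial : ℝ) := by exact_mod_cast Nat.one_le_iff_ne_zero.2 r.factorial_ne_zero
  rw [div_le_iff₀ (by linarith)]
  calc s ^ r * Real.exp s ≤ s * 3 := mul_le_mul h4 h3 (Real.exp_pos s).le hs.le
    _ = 3 * s * 1 := by ring
    _ ≤ 3 * s * (r.factorial : ℝ) := mul_le_mul_of_nonneg_left h5 (by positivity)

/-- what follows from the levels up to `r + 1` -/
def Near (r : ℕ) : Prop := ∀ s : ℝ, 0 < s → ∀ ε : ℝ, 0 < ε →
  ∀ᶠ T in atTop, |hol FZ s T - GG s| ≤ err r s + ε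

theorem near_of {r : ℕ} (hr : 1 ≤ r) (h : Q241.KL.Upper r) : Near r := by
  intro s hs ε hε
  refine hol_near FZ hr (fun i h1 h2 => ?_) hs hε
  rw [← Q241.KL.Conj_iff]
  exact Q241.KL.conj_le h1 h2 (Q241.KL.upper_conj h)

theorem Rp_lim {r : ℕ} (hr : 1 ≤ r) (h : Near r) {ε : ℝ} (hε : 0 < ε) :
    ∀ᶠ T in atTop, Rp T ≤ ε := by
  set s : ℝ := min 1 (ε / 24) with hs
  have hs0 : 0 < s := lt_min one_pos (by positivity)
  have hs1 : s ≤ 1 := min_le_left _ _
  have hs2 : s ≤ ε / 24 := min_le_right _ _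
  have h1 := GG_small hs0 hs1
  have h2 := err_small hr hs0 hs1
  have h3 : Tendsto (fun T => 1 / nT T) atTop (𝓝 0) := by
    simpa using nT_tend.const_div_atTop (1 : ℝ)
  filter_upwards [h s hs0 (ε / 8) (by positivity), eventually_ge_atTop 10,
    (tendsto_order.1 NZ_lim).2 (1 + ε / 8) (by linarith),
    (tendsto_order.1 h3).2 (ε / 8) (by positivity)] with T b1 b2 b3 b4
  have b5 := Rp_le b2 hs0.le
  have b6 := (abs_le.1 b1).1
  linarith

theorem Gt_near {r : ℕ} (hr : 1 ≤ r) (h : Near r) {s : ℝ} (hs : 0 < s) {ε : ℝ} (hε : 0 < ε) :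
    ∀ᶠ T in atTop, |Gt T s - GG s| ≤ err r s + ε := by
  have h3 : Tendsto (fun T => 1 / nT T) atTop (𝓝 0) := by
    simpa using nT_tend.const_div_atTop (1 : ℝ)
  filter_upwards [h s hs (ε / 2) (by positivity), eventually_ge_atTop 10,
    Rp_lim hr h (ε := ε / 2) (by positivity),
    (tendsto_order.1 h3).2 (ε / 2) (by positivity)] with T b1 b2 b3 b4
  have b5 := hol_le_Gt b2 hs.le
  have b6 := Gt_le_hol b2 hs.le
  rw [abs_le] at b1 ⊢
  constructor <;> linarith [b1.1, b1.2]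

/-- `D n` is asymptotically the normalised gap -/
def Cmp (D : ℕ → ℝ) : Prop := ∀ δ : ℝ, 0 < δ → δ ≤ 1 → ∀ e : ℝ, 0 < e → ∀ᶠ T in atTop, ∀ n : ℕ,
  1 ≤ n → δ * T ≤ ord n → ord (n + 1) ≤ T → |D n - xx T 1 n| ≤ e * xx T 1 n

/-- the proportion of the `n ≤ N` with `D n > s` -/
noncomputable def PN (D : ℕ → ℝ) (N : ℕ) (s : ℝ) : ℝ :=
  (((Finset.Ioc 0 N).filter fun n => s < D n).card : ℝ) / N

theorem PN_nonneg (D : ℕ → ℝ) (N : ℕ) (s : ℝ) : 0 ≤ PN D N s := by
  unfold PN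
  positivity

theorem PN_le_one (D : ℕ → ℝ) (N : ℕ) (s : ℝ) : PN D N s ≤ 1 := by
  unfold PN
  have h : ((Finset.Ioc 0 N).filter fun n => s < D n).card ≤ N := by
    refine (Finset.card_filter_le _ _).trans ?_
    rw [Nat.card_Ioc, Nat.sub_zero]
  have h' : (((Finset.Ioc 0 N).filter fun n => s < D n).card : ℝ) ≤ N := by exact_mod_cast h
  exact div_le_one_of_le₀ h' (Nat.cast_nonneg _)

theorem PN_anti (D : ℕ → ℝ) (N : ℕ) : Antitone (PN D N) := by
  intro s t hst
  unfold PN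
  refine div_le_div_of_nonneg_right ?_ (Nat.cast_nonneg _)
  norm_cast
  refine Finset.card_le_card fun n hn => ?_
  rw [mem_filter] at hn ⊢
  exact ⟨hn.1, lt_of_le_of_lt hst hn.2⟩

theorem PN_mul {D : ℕ → ℝ} {N : ℕ} (hN : 1 ≤ N) (s : ℝ) :
    (((Finset.Ioc 0 N).filter fun n => s < D n).card : ℝ) = N * PN D N s := by
  have : (N : ℝ) ≠ 0 := by
    have : (1 : ℝ) ≤ N := by exact_mod_cast hN
    linarith
  unfold PN
  field_simp

theorem PN_le {D : ℕ → ℝ} (hD : Cmp D) {s s' : ℝ} (hs' : 0 < s') (hss : s' < s) {η : ℝ}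
    (hη : 0 < η) : ∀ᶠ N : ℕ in atTop, PN D N s ≤ Gt (ord N) s' + η := by
  obtain ⟨δ, hδ0, hδ1, hear⟩ := early (η := η / 4) (by positivity)
  have he : 0 < s / s' - 1 := by
    rw [sub_pos, lt_div_iff₀ hs']
    linarith
  have h3 : Tendsto (fun T => 1 / nT T) atTop (𝓝 0) := by
    simpa using nT_tend.const_div_atTop (1 : ℝ)
  have hT : ∀ᶠ T in atTop, 10 ≤ T ∧ (NZ (δ * T) : ℝ) ≤ η / 4 * nT T ∧ 1 / nT T < η / 4 ∧
      ∀ n : ℕ, 1 ≤ n → δ * T ≤ ord n → ord (n + 1) ≤ T →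
        |D n - xx T 1 n| ≤ (s / s' - 1) * xx T 1 n := by
    filter_upwards [eventually_ge_atTop 10, hear, (tendsto_order.1 h3).2 (η / 4) (by positivity),
      hD δ hδ0 hδ1 _ he] with T h1 h2 h3 h4
    exact ⟨h1, h2, h3, h4⟩
  filter_upwards [ord_lim.eventually hT, eventually_ge_atTop 1,
    (tendsto_order.1 N_ratio).1 (1 - η / 4) (by linarith)] with N h1 h2 h5
  obtain ⟨h1, h4, h6, h7⟩ := h1
  set T := ord N with hTN
  have hn := nT_pos h1
  have hNN : N ≤ NZ T := N_le h2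
  have hsub : (Finset.Ioc 0 N).filter (fun n => s < D n) ⊆
      Finset.Ioc 0 (NZ (δ * T)) ∪ ({NZ T} ∪ (Finset.Ioc 0 (NZ T - 1)).filter
        (fun n => s' < xx T 1 n)) := by
    intro n hn
    rw [Finset.mem_filter, Finset.mem_Ioc] at hn
    obtain ⟨⟨k1, k2⟩, k3⟩ := hn
    rw [Finset.mem_union, Finset.mem_union, Finset.mem_Ioc, Finset.mem_singleton, Finset.mem_filter,
      Finset.mem_Ioc]
    by_cases a1 : n ≤ NZ (δ * T)
    · exact Or.inl ⟨k1, a1⟩
    by_cases a2 : n = NZ T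
    · exact Or.inr (Or.inl a2)
    refine Or.inr (Or.inr ⟨⟨k1, by omega⟩, ?_⟩)
    have b1 : δ * T ≤ ord n := by
      by_contra hc
      push Not at hc
      exact a1 ((SG.ord_le_iff k1 _).1 hc.le)
    have b2 : ord (n + 1) ≤ T := (SG.ord_le_iff (by omega) T).2 (by omega)
    have b3 := h7 n k1 b1 b2
    have b4 := (abs_le.1 b3).2
    have b5 : s < s / s' * xx T 1 n := by linarith
    rw [div_mul_eq_mul_div, lt_div_iff₀ hs'] at b5
    by_contra hc
    push Not at hc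
    have : s * xx T 1 n ≤ s * s' := mul_le_mul_of_nonneg_left hc (by linarith)
    linarith
  have hcard := (Finset.card_le_card hsub).trans ((Finset.card_union_le _ _).trans
    (Nat.add_le_add_left (Finset.card_union_le _ _) _))
  rw [Nat.card_Ioc, Nat.sub_zero, Finset.card_singleton] at hcard
  have hc2 : (((Finset.Ioc 0 N).filter (fun n => s < D n)).card : ℝ) ≤
      NZ (δ * T) + (1 + ((Finset.Ioc 0 (NZ T - 1)).filter (fun n => s' < xx T 1 n)).card) := by
    exact_mod_cast hcard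
  rw [PN_mul h2] at hc2
  have hc3 : (((Finset.Ioc 0 (NZ T - 1)).filter (fun n => s' < xx T 1 n)).card : ℝ) =
      nT T * Gt T s' := by
    unfold Gt
    rw [mul_div_cancel₀ _ hn.ne']
  rw [hc3] at hc2
  have h6' : 1 < η / 4 * nT T := by
    rwa [div_lt_iff₀ hn] at h6
  have h5' : (1 - η / 4) * nT T < N := by
    rwa [lt_div_iff₀ hn] at h5
  have hP0 := PN_nonneg D N s
  have hP1 := PN_le_one D N s
  -- `nT * PN ≤ N * PN + η/4 nT`
  have h8 : nT T * PN D N s ≤ nT T * (Gt T s' + 3 * η / 4) := by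
    have : (nT T - N) * PN D N s ≤ η / 4 * nT T := by
      rcases le_or_gt (nT T) N with h | h
      · have : (nT T - N) * PN D N s ≤ 0 := mul_nonpos_of_nonpos_of_nonneg (by linarith) hP0
        have h9 : 0 ≤ η / 4 * nT T := by positivity
        linarith
      · have : (nT T - N) * PN D N s ≤ (nT T - N) * 1 :=
          mul_le_mul_of_nonneg_left hP1 (by linarith)
        linarith
    linarith
  have h9 := le_of_mul_le_mul_left h8 hn
  linarith

theorem le_PN {D : ℕ → ℝ} (hD : Cmp D) {s s' : ℝ} (hs : 0 < s) (hss : s < s') {η : ℝ}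
    (hη : 0 < η) : ∀ᶠ N : ℕ in atTop, Gt (ord N) s' ≤ PN D N s + η := by
  obtain ⟨δ, hδ0, hδ1, hear⟩ := early (η := η / 4) (by positivity)
  have hs' : 0 < s' := hs.trans hss
  have he : 0 < 1 - s / s' := by
    rw [sub_pos, div_lt_one hs']
    exact hss
  have hT : ∀ᶠ T in atTop, 10 ≤ T ∧ (NZ (δ * T) : ℝ) ≤ η / 4 * nT T ∧
      ∀ n : ℕ, 1 ≤ n → δ * T ≤ ord n → ord (n + 1) ≤ T →
        |D n - xx T 1 n| ≤ (1 - s / s') * xx T 1 n := by
    filter_upwards [eventually_ge_atTop 10, hear, hD δ hδ0 hδ1 _ he] with T h1 h2 h4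
    exact ⟨h1, h2, h4⟩
  filter_upwards [ord_lim.eventually hT, eventually_ge_atTop 1,
    (tendsto_order.1 N_ratio).1 (1 - η / 4) (by linarith),
    (tendsto_order.1 N_ratio).2 (1 + η / 4) (by linarith),
    (tendsto_order.1 NZ_ord).2 (1 + η / 4) (by linarith)] with N h1 h2 h5 h6 h8
  obtain ⟨h1, h4, h7⟩ := h1
  set T := ord N with hTN
  have hn := nT_pos h1
  have hNN : N ≤ NZ T := N_le h2
  have hsub : (Finset.Ioc 0 (NZ T - 1)).filter (fun n => s' < xx T 1 n) ⊆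
      Finset.Ioc 0 (NZ (δ * T)) ∪ (Finset.Ioc N (NZ T) ∪
        (Finset.Ioc 0 N).filter (fun n => s < D n)) := by
    intro n hn
    rw [Finset.mem_filter, Finset.mem_Ioc] at hn
    obtain ⟨⟨k1, k2⟩, k3⟩ := hn
    rw [Finset.mem_union, Finset.mem_union, Finset.mem_Ioc, Finset.mem_Ioc, Finset.mem_filter,
      Finset.mem_Ioc]
    by_cases a1 : n ≤ NZ (δ * T)
    · exact Or.inl ⟨k1, a1⟩
    by_cases a2 : N < n
    · exact Or.inr (Or.inl ⟨a2, by omega⟩)
    refine Or.inr (Or.inr ⟨⟨k1, by omega⟩, ?_⟩)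
    have b1 : δ * T ≤ ord n := by
      by_contra hc
      push Not at hc
      exact a1 ((SG.ord_le_iff k1 _).1 hc.le)
    have b2 : ord (n + 1) ≤ T := (SG.ord_le_iff (by omega) T).2 (by omega)
    have b3 := h7 n k1 b1 b2
    have b4 := (abs_le.1 b3).1
    have b5 : s / s' * xx T 1 n ≤ D n := by linarith
    have b6 : s / s' * s' < s / s' * xx T 1 n :=
      mul_lt_mul_of_pos_left k3 (by positivity)
    rw [div_mul_cancel₀ _ hs'.ne'] at b6
    linarith
  have hcard := (Finset.card_le_card hsub).trans ((Finset.card_union_le _ _).trans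
    (Nat.add_le_add_left (Finset.card_union_le _ _) _))
  rw [Nat.card_Ioc, Nat.card_Ioc, Nat.sub_zero] at hcard
  have hc2 : (((Finset.Ioc 0 (NZ T - 1)).filter (fun n => s' < xx T 1 n)).card : ℝ) ≤
      NZ (δ * T) + ((NZ T - N) + ((Finset.Ioc 0 N).filter (fun n => s < D n)).card) := by
    rw [← Nat.cast_sub hNN]
    exact_mod_cast hcard
  rw [PN_mul h2] at hc2
  have hc3 : (((Finset.Ioc 0 (NZ T - 1)).filter (fun n => s' < xx T 1 n)).card : ℝ) =
      nT T * Gt T s' := by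
    unfold Gt
    rw [mul_div_cancel₀ _ hn.ne']
  rw [hc3] at hc2
  have h5' : (1 - η / 4) * nT T < N := by
    rwa [lt_div_iff₀ hn] at h5
  have h6' : (N : ℝ) < (1 + η / 4) * nT T := by
    rwa [div_lt_iff₀ hn] at h6
  have h8' : (NZ T : ℝ) < (1 + η / 4) * nT T := by
    rwa [div_lt_iff₀ hn] at h8
  have hP0 := PN_nonneg D N s
  have hP1 := PN_le_one D N s
  have h9 : nT T * Gt T s' ≤ nT T * (PN D N s + η) := by
    have : (N - nT T) * PN D N s ≤ η / 4 * nT T := by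
      rcases le_or_gt (N : ℝ) (nT T) with h | h
      · have : (N - nT T) * PN D N s ≤ 0 := mul_nonpos_of_nonpos_of_nonneg (by linarith) hP0
        have h9 : 0 ≤ η / 4 * nT T := by positivity
        linarith
      · have : (N - nT T) * PN D N s ≤ (N - nT T) * 1 :=
          mul_le_mul_of_nonneg_left hP1 (by linarith)
        linarith
    linarith
  exact le_of_mul_le_mul_left h9 hn

theorem PN_near {D : ℕ → ℝ} (hD : Cmp D) {r : ℕ} (hr : 1 ≤ r) (h : Near r) {s : ℝ} (hs : 0 < s)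
    {ε : ℝ} (hε : 0 < ε) : ∀ᶠ N : ℕ in atTop, |PN D N s - GG s| ≤ err r s + ε := by
  have h1 : ∀ᶠ t in 𝓝 s, |GG t - GG s| < ε / 8 := by
    have := Metric.continuousAt_iff'.1 (GG_cont hs) (ε / 8) (by positivity)
    simpa [Real.dist_eq] using this
  have h2 : ∀ᶠ t in 𝓝 s, |err r t - err r s| < ε / 8 := by
    have := Metric.continuousAt_iff'.1 ((err_cont r).continuousAt (x := s)) (ε / 8) (by positivity)
    simpa [Real.dist_eq] using this
  obtain ⟨d, hd, hball⟩ := Metric.eventually_nhds_iff.1 ((h1.and h2).and (Ioi_mem_nhds hs))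
  have hm : ∀ t : ℝ, |t - s| < d → (|GG t - GG s| < ε / 8 ∧ |err r t - err r s| < ε / 8) ∧ 0 < t := by
    intro t ht
    exact hball (by rwa [Real.dist_eq])
  obtain ⟨⟨c1, c2⟩, c3⟩ := hm (s - d / 2) (by
    rw [show s - d / 2 - s = -(d / 2) by ring, abs_neg, abs_of_pos (by positivity)]; linarith)
  obtain ⟨⟨c4, c5⟩, c6⟩ := hm (s + d / 2) (by
    rw [show s + d / 2 - s = d / 2 by ring, abs_of_pos (by positivity)]; linarith)
  have g1 := ord_lim.eventually (Gt_near hr h c3 (ε := ε / 4) (by positivity))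
  have g2 := ord_lim.eventually (Gt_near hr h c6 (ε := ε / 4) (by positivity))
  filter_upwards [g1, g2, PN_le hD c3 (show s - d / 2 < s by linarith) (η := ε / 4) (by positivity),
    le_PN hD hs (show s < s + d / 2 by linarith) (η := ε / 4) (by positivity)] with N b1 b2 b3 b4
  rw [abs_lt] at c1 c2 c4 c5
  rw [abs_le] at b1 b2 ⊢
  constructor <;> linarith [b1.1, b1.2, b2.1, b2.2]

theorem PN_lim {D : ℕ → ℝ} (hD : Cmp D) (h : ∀ r0 : ℕ, ∃ r : ℕ, r0 ≤ r ∧ Q241.KL.Upper r) {s : ℝ}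
    (hs : 0 < s) : Tendsto (fun N => PN D N s) atTop (𝓝 (GG s)) := by
  rw [Metric.tendsto_nhds]
  intro ε hε
  obtain ⟨r0, hr0⟩ := eventually_atTop.1 ((tendsto_order.1 (err_lim s)).2 (ε / 4) (by positivity))
  obtain ⟨r, hr, hU⟩ := h (max r0 1)
  have hr1 : 1 ≤ r := (le_max_right _ _).trans hr
  have h1 := hr0 r ((le_max_left _ _).trans hr)
  filter_upwards [PN_near hD hr1 (near_of hr1 hU) hs (ε := ε / 4) (by positivity)] with N hN
  rw [Real.dist_eq]
  linarith

end Q241.GL
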