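import Pool.Agent.Q241.GL.F

/-! # Intervals, and one-sided bounds for the distribution function -/

set_option autoImplicit false

namespace Q241.GL

open Finset Filter Topology MeasureTheory
open Q241.KL (SI JZ mem_JZ xz FZ)
open Q241.NN (xx xx_nonneg ord_lim N_le N_ratio NZ_ord dl)
open Pool.Agent.Y763.AH
open Pool.Agent.Y749.Rig (nT nT_pos one_lt_log)
open SG (ord NZ)

/-- the unfolded gap -/
noncomputable def D1 (n : ℕ) : ℝ := (ord (n + 1) - ord n) / (2 * Real.pi) * Real.log (ord n / (2 * Real.pi))

theorem Cmp_D1 : Cmp D1 := by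
  intro δ hδ hδ1 e he
  have h1 : Tendsto (fun T => (|Real.log δ| + Real.log (2 * Real.pi)) / Real.log T) atTop (𝓝 0) :=
    Tendsto.div_atTop tendsto_const_nhds Real.tendsto_log_atTop
  filter_upwards [(tendsto_order.1 h1).2 e he, eventually_ge_atTop 10] with T h2 hT n hn h3 h4
  have hpi := Real.pi_gt_three
  have hL := one_lt_log (show 3 ≤ T by linarith)
  have h5 : ord n ≤ ord (n + 1) := SG.ord_mono hn (by omega)
  have h6 : 0 < δ * T := by positivity
  have h7 : 0 < ord n := by linarith
  have h8 : Real.log (δ * T) ≤ Real.log (ord n) := Real.log_le_log h6 h3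
  have h9 : Real.log (ord n) ≤ Real.log T := Real.log_le_log h7 (by linarith)
  rw [Real.log_mul hδ.ne' (by linarith)] at h8
  have h10 : Real.log (ord n / (2 * Real.pi)) = Real.log (ord n) - Real.log (2 * Real.pi) :=
    Real.log_div h7.ne' (by positivity)
  have h11 : 0 ≤ Real.log (2 * Real.pi) := Real.log_nonneg (by linarith)
  have h12 : |Real.log (ord n / (2 * Real.pi)) - Real.log T| ≤ |Real.log δ| + Real.log (2 * Real.pi) := by
    rw [h10, abs_le]
    have := neg_abs_le (Real.log δ)
    have := le_abs_self (Real.log δ)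
    have := abs_nonneg (Real.log δ)
    constructor <;> linarith
  have e1 : D1 n - xx T 1 n = (ord (n + 1) - ord n) / (2 * Real.pi) *
      (Real.log (ord n / (2 * Real.pi)) - Real.log T) := by
    unfold D1 xx
    ring
  have h13 : 0 ≤ (ord (n + 1) - ord n) / (2 * Real.pi) := by
    refine div_nonneg (by linarith) (by positivity)
  rw [e1, abs_mul, abs_of_nonneg h13]
  have h14 : |Real.log δ| + Real.log (2 * Real.pi) ≤ e * Real.log T := by
    rw [div_lt_iff₀ (by linarith)] at h2
    exact h2.le
  calc _ ≤ (ord (n + 1) - ord n) / (2 * Real.pi) * (e * Real.log T) :=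
        mul_le_mul_of_nonneg_left (h12.trans h14) h13
    _ = e * xx T 1 n := by
        unfold xx
        ring

theorem Cmp_dl : Cmp (dl 1) := by
  intro δ hδ hδ1 e he
  filter_upwards [(tendsto_order.1 (Q241.NN.e_lim δ)).2 e he, eventually_ge_atTop 10] with T h2 hT n hn h3 h4
  refine (Q241.NN.cmp' hT hδ hn h3 h4).trans ?_
  rw [mul_comm e]
  exact mul_le_mul_of_nonneg_left h2.le (xx_nonneg (by linarith) hn)

/-- the mean of the `D n` is at most one -/
def MeanLe (D : ℕ → ℝ) : Prop := ∀ ε : ℝ, 0 < ε → ∀ᶠ N : ℕ in atTop,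
  ∑ n ∈ Finset.Ioc 0 N, max (D n) 0 ≤ (1 + ε) * N

theorem sum_xx (T : ℝ) (N : ℕ) : ∑ n ∈ Finset.Ioc 0 N, xx T 1 n =
    (ord (N + 1) - ord 1) * Real.log T / (2 * Real.pi) := by
  induction N with
  | zero => simp
  | succ N ih =>
    rw [Finset.sum_Ioc_succ_top (by omega), ih]
    unfold xx
    ring

theorem N_ratio' : Tendsto (fun N : ℕ => (N : ℝ) / nT (ord (N + 1))) atTop (𝓝 1) := by
  have h1 := N_ratio.comp (tendsto_add_atTop_nat 1)
  have h2 : Tendsto (fun N : ℕ => 1 / nT (ord (N + 1))) atTop (𝓝 0) := by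
    have h3 : Tendsto (fun N : ℕ => nT (ord (N + 1))) atTop atTop :=
      nT_tend.comp (ord_lim.comp (tendsto_add_atTop_nat 1))
    simpa using h3.const_div_atTop (1 : ℝ)
  have h3 := h1.sub h2
  rw [sub_zero] at h3
  refine h3.congr fun N => ?_
  simp only [Function.comp_apply]
  push_cast
  ring

theorem nT_le' {ε : ℝ} (hε : 0 < ε) : ∀ᶠ N : ℕ in atTop, nT (ord (N + 1)) ≤ (1 + ε) * N := by
  have h1 : (1 : ℝ) / (1 + ε) < 1 := by
    rw [div_lt_one (by linarith)]
    linarith
  filter_upwards [(tendsto_order.1 N_ratio').1 _ h1,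
    (ord_lim.comp (tendsto_add_atTop_nat 1)).eventually (eventually_ge_atTop 10)] with N h2 h3
  have h3' : 10 ≤ ord (N + 1) := h3
  have hn := nT_pos h3'
  rw [div_lt_div_iff₀ (by linarith) hn] at h2
  linarith

theorem MeanLe_D1 : MeanLe D1 := by
  intro ε hε
  filter_upwards [nT_le' hε,
    (ord_lim.comp (tendsto_add_atTop_nat 1)).eventually (eventually_ge_atTop 10)] with N h1 h2
  have h2' : 10 ≤ ord (N + 1) := h2
  have hpi := Real.pi_gt_three
  have hL := one_lt_log (show 3 ≤ ord (N + 1) by linarith)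
  have h3 : ∀ n ∈ Finset.Ioc 0 N, max (D1 n) 0 ≤ xx (ord (N + 1)) 1 n := by
    intro n hn
    rw [mem_Ioc] at hn
    have h4 : ord n ≤ ord (n + 1) := SG.ord_mono hn.1 (by omega)
    have h5 : ord n ≤ ord (N + 1) := SG.ord_mono hn.1 (by omega)
    have h6 := SG.ord_pos hn.1
    refine max_le ?_ (xx_nonneg (by linarith) hn.1)
    unfold D1 xx
    rw [mul_div_right_comm]
    refine mul_le_mul_of_nonneg_left ?_ (div_nonneg (by linarith) (by positivity))
    refine Real.log_le_log (by positivity) ?_
    rw [div_le_iff₀ (by positivity)]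
    nlinarith
  refine (Finset.sum_le_sum h3).trans ?_
  rw [sum_xx]
  refine le_trans ?_ h1
  unfold nT
  refine div_le_div_of_nonneg_right ?_ (by positivity)
  refine mul_le_mul_of_nonneg_right ?_ (by linarith)
  have := SG.ord_pos (n := 1) le_rfl
  linarith

theorem int_ind (d M : ℝ) (hM : 0 ≤ M) :
    ∫ s in (0 : ℝ)..M, (if s < d then (1 : ℝ) else 0) ≤ max d 0 := by
  rw [intervalIntegral.integral_of_le hM]
  have e : (fun s : ℝ => if s < d then (1 : ℝ) else 0) = (Set.Iio d).indicator fun _ => (1 : ℝ) := by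
    funext s
    simp [Set.indicator, Set.mem_Iio]
  rw [e, setIntegral_indicator measurableSet_Iio, setIntegral_const, smul_eq_mul, mul_one]
  have h1 : Set.Ioc 0 M ∩ Set.Iio d ⊆ Set.Ioo 0 d := fun x hx => ⟨hx.1.1, hx.2⟩
  have h2 : volume.real (Set.Ioo 0 d) = max d 0 := by
    rw [Measure.real, Real.volume_Ioo, sub_zero, ENNReal.toReal_ofReal']
  rw [← h2]
  refine measureReal_mono h1 ?_
  rw [Real.volume_Ioo]
  exact ENNReal.ofReal_ne_top

theorem ind_ii (d a b : ℝ) :
    IntervalIntegrable (fun s : ℝ => if s < d then (1 : ℝ) else 0) volume a b := by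
  have h : Antitone fun s : ℝ => if s < d then (1 : ℝ) else 0 := by
    intro s t hst
    dsimp only
    split_ifs with h1 h2
    · exact le_rfl
    · exact absurd (lt_of_le_of_lt hst h1) h2
    · exact zero_le_one
    · exact le_rfl
  exact h.intervalIntegrable

theorem PN_int (D : ℕ → ℝ) (N : ℕ) {M : ℝ} (hM : 0 ≤ M) :
    ∫ s in (0 : ℝ)..M, PN D N s ≤ (∑ n ∈ Finset.Ioc 0 N, max (D n) 0) / N := by
  have e : ∀ s, PN D N s = (∑ n ∈ Finset.Ioc 0 N, if s < D n then (1 : ℝ) else 0) / N := by
    intro s
    unfold PN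
    rw [Finset.sum_boole]
  simp_rw [e]
  rw [intervalIntegral.integral_div, intervalIntegral.integral_finsetSum fun n _ => ind_ii _ _ _]
  refine div_le_div_of_nonneg_right ?_ (Nat.cast_nonneg _)
  exact Finset.sum_le_sum fun n _ => int_ind _ _ hM

/-- a continuous tail function of a law on `(0, ∞)` with mean one -/
structure Tail (H : ℝ → ℝ) : Prop where
  anti : Antitone H
  cont : Continuous H
  nonneg : ∀ s, 0 ≤ H s
  le_one : ∀ s, H s ≤ 1
  mean : ∫ s in Set.Ioi (0 : ℝ), H s = 1

/-- **one-sided bounds suffice** -/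
theorem one_sided {D : ℕ → ℝ} (hD : MeanLe D) {H : ℝ → ℝ} (hH : Tail H)
    (hU : ∀ s : ℝ, 0 < s → ∀ ε : ℝ, 0 < ε → ∀ᶠ N : ℕ in atTop, H s - ε ≤ PN D N s) {s0 : ℝ}
    (hs0 : 0 < s0) : Tendsto (fun N => PN D N s0) atTop (𝓝 (H s0)) := by
  have hint : IntegrableOn H (Set.Ioi 0) := by
    by_contra hc
    have := integral_undef hc
    rw [hH.mean] at this
    exact one_ne_zero this
  have hup : ∀ ε : ℝ, 0 < ε → ∀ᶠ N : ℕ in atTop, PN D N s0 ≤ H s0 + ε := by
    intro ε hε
    -- continuity
    obtain ⟨c, hc0, hcs, hc⟩ : ∃ c : ℝ, 0 < c ∧ c < s0 ∧ H (s0 - c) ≤ H s0 + ε / 2 := by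
      have h1 : ∀ᶠ t in 𝓝 s0, H t < H s0 + ε / 2 :=
        (hH.cont.continuousAt (x := s0)).eventually (gt_mem_nhds (by linarith))
      obtain ⟨d, hd, hb⟩ := Metric.eventually_nhds_iff.1 h1
      refine ⟨min (d / 2) (s0 / 2), lt_min (by positivity) (by positivity),
        (min_le_right _ _).trans_lt (by linarith), (hb ?_).le⟩
      rw [Real.dist_eq, sub_sub_cancel_left, abs_neg, abs_of_pos (lt_min (by positivity) (by positivity))]
      exact (min_le_left _ _).trans_lt (by linarith)
    set η : ℝ := c * ε / 8 with hη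
    have hη0 : 0 < η := by positivity
    have hlim := intervalIntegral_tendsto_integral_Ioi 0 hint tendsto_id
    rw [hH.mean] at hlim
    obtain ⟨M, hM1, hM2⟩ := (((tendsto_order.1 hlim).1 (1 - η) (by linarith)).and
      (eventually_ge_atTop s0)).exists
    have hM1' : 1 - η < ∫ s in (0 : ℝ)..M, H s := hM1
    have hM0 : 0 < M := hs0.trans_le hM2
    -- the negative part tends to zero
    have hg : Tendsto (fun N : ℕ => ∫ s in (0 : ℝ)..M, max (H s - PN D N s) 0) atTop
        (𝓝 (∫ s in (0 : ℝ)..M, (0 : ℝ))) := by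
      refine intervalIntegral.tendsto_integral_filter_of_dominated_convergence (fun _ => (1 : ℝ))
        ?_ ?_ ?_ ?_
      · filter_upwards with N
        exact ((hH.cont.measurable.sub (PN_anti D N).measurable).max
          measurable_const).aestronglyMeasurable
      · filter_upwards with N
        refine ae_of_all _ fun s _ => ?_
        rw [Real.norm_of_nonneg (le_max_right _ _)]
        refine max_le ?_ zero_le_one
        have := PN_nonneg D N s
        have := hH.le_one s
        linarith
      · exact intervalIntegrable_const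
      · refine ae_of_all _ fun s hs => ?_
        rw [Set.uIoc_of_le hM0.le] at hs
        rw [Metric.tendsto_nhds]
        intro ε' hε'
        filter_upwards [hU s hs.1 (ε' / 2) (by positivity)] with N hN
        rw [Real.dist_eq, sub_zero, abs_of_nonneg (le_max_right _ _)]
        refine max_lt ?_ hε'
        linarith
    rw [intervalIntegral.integral_zero] at hg
    filter_upwards [(tendsto_order.1 hg).2 η hη0, hD η hη0, eventually_ge_atTop 1] with N h1 h2 h3
    have h4 := PN_int D N hM0.le
    have hN0 : (0 : ℝ) < N := by exact_mod_cast h3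
    have h5 : (∑ n ∈ Finset.Ioc 0 N, max (D n) 0) / N ≤ 1 + η := by
      rw [div_le_iff₀ hN0]
      exact h2
    by_contra hcon
    push Not at hcon
    have i1 : IntervalIntegrable (PN D N) volume 0 M := (PN_anti D N).intervalIntegrable
    have i2 : IntervalIntegrable H volume 0 M := hH.cont.intervalIntegrable _ _
    have i3 : IntervalIntegrable (fun s => max (H s - PN D N s) 0) volume 0 M := by
      have h := (i2.sub i1)
      exact ⟨h.1.pos_part, h.2.pos_part⟩
    have h6 : ∫ s in (0 : ℝ)..M, (PN D N s - H s + max (H s - PN D N s) 0) ≤ 3 * η := by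
      rw [intervalIntegral.integral_add (i1.sub i2) i3, intervalIntegral.integral_sub i1 i2]
      linarith
    have h7 : ∀ s, 0 ≤ PN D N s - H s + max (H s - PN D N s) 0 := by
      intro s
      have := le_max_left (H s - PN D N s) 0
      linarith
    have h8 : ∫ s in (s0 - c)..s0, (ε / 2) ≤
        ∫ s in (0 : ℝ)..M, (PN D N s - H s + max (H s - PN D N s) 0) := by
      have hsub : ∫ s in (s0 - c)..s0, (PN D N s - H s + max (H s - PN D N s) 0) ≤
          ∫ s in (0 : ℝ)..M, (PN D N s - H s + max (H s - PN D N s) 0) := by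
        refine intervalIntegral.integral_mono_interval (by linarith) (by linarith) hM2 ?_
          ((i1.sub i2).add i3)
        exact ae_of_all _ h7
      refine le_trans ?_ hsub
      have j : IntervalIntegrable (fun s => PN D N s - H s + max (H s - PN D N s) 0) volume
          (s0 - c) s0 := by
        refine ((i1.sub i2).add i3).mono_set ?_
        rw [Set.uIcc_of_le (by linarith), Set.uIcc_of_le hM0.le]
        exact Set.Icc_subset_Icc (by linarith) hM2
      refine intervalIntegral.integral_mono_on (by linarith) intervalIntegrable_const j ?_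
      intro s hs
      have h9 : PN D N s0 ≤ PN D N s := PN_anti D N hs.2
      have h10 : H s ≤ H (s0 - c) := hH.anti hs.1
      have h11 := le_max_right (H s - PN D N s) 0
      linarith
    rw [intervalIntegral.integral_const, smul_eq_mul] at h8
    have h9 : (s0 - (s0 - c)) * (ε / 2) = 4 * η := by
      rw [hη]
      ring
    linarith
  rw [Metric.tendsto_nhds]
  intro ε hε
  filter_upwards [hU s0 hs0 (ε / 2) (by positivity), hup (ε / 2) (by positivity)] with N h1 h2
  rw [Real.dist_eq, abs_lt]
  constructor <;> linarith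

end Q241.GL
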