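import Pool.Agent.Q241.GL.G

/-! # Proportions of the gaps in intervals -/

set_option autoImplicit false

namespace Q241.GL

open Finset Filter Topology MeasureTheory

/-- the proportion of the `n ≤ N` with `D n ∈ I` -/
noncomputable def Pr (D : ℕ → ℝ) (N : ℕ) (I : Set ℝ) : ℝ :=
  (1 / N : ℝ) * ({n : ℕ | 1 ≤ n ∧ n ≤ N ∧ D n ∈ I}.ncard : ℝ)

theorem ncard_eq (D : ℕ → ℝ) (N : ℕ) (I : Set ℝ) [DecidablePred fun n => D n ∈ I] :
    {n : ℕ | 1 ≤ n ∧ n ≤ N ∧ D n ∈ I}.ncard = ((Finset.Ioc 0 N).filter fun n => D n ∈ I).card := by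
  rw [← Set.ncard_coe_finset]
  congr 1
  ext n
  rw [mem_coe, mem_filter, mem_Ioc]
  constructor
  · rintro ⟨h1, h2, h3⟩
    exact ⟨⟨h1, h2⟩, h3⟩
  · rintro ⟨⟨h1, h2⟩, h3⟩
    exact ⟨h1, h2, h3⟩

theorem Pr_Ioi (D : ℕ → ℝ) (N : ℕ) (s : ℝ) : Pr D N (Set.Ioi s) = PN D N s := by
  classical
  unfold Pr PN
  rw [ncard_eq, one_div, inv_mul_eq_div]
  simp only [Set.mem_Ioi]

theorem Pr_mono (D : ℕ → ℝ) (N : ℕ) {I J : Set ℝ} (h : I ⊆ J) : Pr D N I ≤ Pr D N J := by
  classical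
  unfold Pr
  rw [ncard_eq, ncard_eq]
  refine mul_le_mul_of_nonneg_left ?_ (by positivity)
  norm_cast
  refine Finset.card_le_card fun n hn => ?_
  rw [mem_filter] at hn ⊢
  exact ⟨hn.1, h hn.2⟩

theorem Pr_union (D : ℕ → ℝ) (N : ℕ) {I J : Set ℝ} (h : Disjoint I J) :
    Pr D N (I ∪ J) = Pr D N I + Pr D N J := by
  classical
  unfold Pr
  rw [ncard_eq, ncard_eq, ncard_eq, ← mul_add]
  congr 1
  norm_cast
  rw [← Finset.card_union_of_disjoint]
  · congr 1
    ext n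
    simp only [mem_filter, mem_union, Set.mem_union]
    tauto
  · rw [Finset.disjoint_left]
    intro n h1 h2
    rw [mem_filter] at h1 h2
    exact (Set.disjoint_left.1 h) h1.2 h2.2

theorem Pr_univ (D : ℕ → ℝ) {N : ℕ} (hN : 1 ≤ N) : Pr D N Set.univ = 1 := by
  classical
  unfold Pr
  rw [ncard_eq]
  have e : (Finset.Ioc 0 N).filter (fun n => D n ∈ Set.univ) = Finset.Ioc 0 N := by
    ext n
    simp
  have h0 : (N : ℝ) ≠ 0 := by
    have : (1 : ℝ) ≤ N := by exact_mod_cast hN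
    linarith
  rw [e, Nat.card_Ioc, Nat.sub_zero]
  field_simp

theorem Pr_Iic (D : ℕ → ℝ) {N : ℕ} (hN : 1 ≤ N) (s : ℝ) : Pr D N (Set.Iic s) = 1 - PN D N s := by
  have h := Pr_union D N (I := Set.Iic s) (J := Set.Ioi s) (by
    rw [Set.disjoint_left]
    intro x h1 h2
    exact absurd (show x ≤ s from h1) (not_le.2 h2))
  rw [Set.Iic_union_Ioi, Pr_univ D hN, Pr_Ioi] at h
  linarith

theorem Pr_Icc_le (D : ℕ → ℝ) (N : ℕ) {a a' b : ℝ} (ha : a' < a) (hab : a ≤ b) :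
    Pr D N (Set.Icc a b) ≤ PN D N a' - PN D N b := by
  have h := Pr_union D N (I := Set.Icc a b) (J := Set.Ioi b) (by
    rw [Set.disjoint_left]
    intro x h1 h2
    exact absurd h2 (not_lt.2 h1.2))
  have h2 := Pr_mono D N (I := Set.Icc a b ∪ Set.Ioi b) (J := Set.Ioi a') (by
    intro x hx
    rcases hx with hx | hx
    · exact lt_of_lt_of_le ha hx.1
    · exact ha.trans_le (hab.trans hx.le))
  rw [h, Pr_Ioi, Pr_Ioi] at h2
  linarith

theorem le_Pr_Icc (D : ℕ → ℝ) (N : ℕ) (a b : ℝ) :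
    PN D N a - PN D N b ≤ Pr D N (Set.Icc a b) := by
  have h := Pr_union D N (I := Set.Icc a b) (J := Set.Ioi b) (by
    rw [Set.disjoint_left]
    intro x h1 h2
    exact absurd h2 (not_lt.2 h1.2))
  have h2 := Pr_mono D N (I := Set.Ioi a) (J := Set.Icc a b ∪ Set.Ioi b) (by
    intro x hx
    rcases le_or_gt x b with h3 | h3
    · exact Or.inl ⟨le_of_lt hx, h3⟩
    · exact Or.inr h3)
  rw [h, Pr_Ioi, Pr_Ioi] at h2
  linarith

theorem Pr_Icc_lim {D : ℕ → ℝ} {G : ℝ → ℝ} (hG : ∀ s, 0 < s → ContinuousAt G s)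
    (h : ∀ s, 0 < s → Tendsto (fun N => PN D N s) atTop (𝓝 (G s))) {a b : ℝ} (ha : 0 < a)
    (hab : a < b) : Tendsto (fun N => Pr D N (Set.Icc a b)) atTop (𝓝 (G a - G b)) := by
  rw [Metric.tendsto_nhds]
  intro ε hε
  have h1 : ∀ᶠ t in 𝓝 a, |G t - G a| < ε / 4 := by
    have := Metric.continuousAt_iff'.1 (hG a ha) (ε / 4) (by positivity)
    simpa [Real.dist_eq] using this
  obtain ⟨d, hd, hball⟩ := Metric.eventually_nhds_iff.1 (h1.and (Ioi_mem_nhds ha))
  have h2 := hball (y := a - d / 2) (by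
    rw [Real.dist_eq, show a - d / 2 - a = -(d / 2) by ring, abs_neg, abs_of_pos (by positivity)]
    linarith)
  obtain ⟨h3, h4⟩ := h2
  filter_upwards [Metric.tendsto_nhds.1 (h (a - d / 2) h4) (ε / 4) (by positivity),
    Metric.tendsto_nhds.1 (h a ha) (ε / 4) (by positivity),
    Metric.tendsto_nhds.1 (h b (ha.trans hab)) (ε / 4) (by positivity)] with N b1 b2 b3
  rw [Real.dist_eq, abs_lt] at b1 b2 b3
  rw [abs_lt] at h3
  have c1 := Pr_Icc_le D N (show a - d / 2 < a by linarith) hab.le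
  have c2 := le_Pr_Icc D N a b
  rw [Real.dist_eq, abs_lt]
  constructor <;> linarith [b1.1, b1.2, b2.1, b2.2, b3.1, b3.2]

theorem Tail_small {H : ℝ → ℝ} (hH : Tail H) {s : ℝ} (hs : 0 < s) : H s ≤ 1 / s := by
  have hint : IntegrableOn H (Set.Ioi 0) := by
    by_contra hc
    have := integral_undef hc
    rw [hH.mean] at this
    exact one_ne_zero this
  have h1 : ∫ x in (0 : ℝ)..s, H s ≤ ∫ x in (0 : ℝ)..s, H x :=
    intervalIntegral.integral_mono_on hs.le intervalIntegrable_const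
      (hH.cont.intervalIntegrable _ _) fun x hx => hH.anti hx.2
  have h2 : ∫ x in (0 : ℝ)..s, H x ≤ 1 := by
    rw [intervalIntegral.integral_of_le hs.le, ← hH.mean]
    exact setIntegral_mono_set hint (ae_of_all _ fun x => hH.nonneg x)
      (show Set.Ioc 0 s ≤ Set.Ioi 0 from fun x hx => hx.1).eventuallyLE
  rw [intervalIntegral.integral_const, sub_zero, smul_eq_mul] at h1
  rw [le_div_iff₀ hs]
  linarith

/-- **the upper half of the law of the gaps** -/
theorem half {D : ℕ → ℝ} (hD : MeanLe D) {H : ℝ → ℝ} (hH : Tail H) :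
    (∀ a b : ℝ, 0 < a → a < b → Tendsto (fun N => Pr D N (Set.Icc a b)) atTop (𝓝 (H a - H b))) ↔
    ∀ s : ℝ, 0 < s → ∀ ε : ℝ, 0 < ε → ∀ᶠ N : ℕ in atTop, Pr D N (Set.Iic s) ≤ 1 - H s + ε := by
  constructor
  · intro h s hs ε hε
    -- choose `s < a < b`
    have h1 : ∀ᶠ t in 𝓝[>] s, H s - ε / 4 < H t :=
      ((hH.cont.continuousAt (x := s)).eventually (lt_mem_nhds (by linarith))).filter_mono
        nhdsWithin_le_nhds
    obtain ⟨a, h2, h3⟩ := (h1.and self_mem_nhdsWithin).exists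
    have h3' : s < a := h3
    set b : ℝ := max (a + 1) (4 / ε) with hb
    have hab : a < b := lt_of_lt_of_le (by linarith) (le_max_left _ _)
    have hb0 : 0 < b := by linarith
    have h4 : H b ≤ ε / 4 := by
      refine (Tail_small hH hb0).trans ?_
      rw [div_le_iff₀ hb0]
      have : 4 / ε ≤ b := le_max_right _ _
      rw [div_le_iff₀ hε] at this
      linarith
    filter_upwards [Metric.tendsto_nhds.1 (h a b (by linarith) hab) (ε / 4) (by positivity),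
      eventually_ge_atTop 1] with N h5 h6
    rw [Real.dist_eq, abs_lt] at h5
    rw [Pr_Iic D h6]
    have h7 := Pr_mono D N (I := Set.Icc a b) (J := Set.Ioi s) fun x hx => lt_of_lt_of_le h3' hx.1
    rw [Pr_Ioi] at h7
    linarith [h5.1]
  · intro h a b ha hab
    refine Pr_Icc_lim (fun s _ => hH.cont.continuousAt) (fun s hs => ?_) ha hab
    refine one_sided hD hH (fun s hs ε hε => ?_) hs
    filter_upwards [h s hs ε hε, eventually_ge_atTop 1] with N h1 h2
    rw [Pr_Iic D h2] at h1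
    linarith

/-- **one level** -/
theorem level {D : ℕ → ℝ} (hD : Cmp D) {r : ℕ} (hr : 1 ≤ r) (h : Q241.KL.Upper r) {s : ℝ}
    (hs : 0 < s) {ε : ℝ} (hε : 0 < ε) :
    ∀ᶠ N : ℕ in atTop, |Pr D N (Set.Ioi s) + deriv EE s| ≤
      s ^ r * Real.exp s / (r.factorial : ℝ) + ε := by
  filter_upwards [PN_near hD hr (near_of hr h) hs hε] with N hN
  rw [Pr_Ioi, (EE_deriv hs).deriv, ← sub_eq_add_neg]
  exact hN

/-- **infinitely many levels** -/
theorem levels {D : ℕ → ℝ} (hD : Cmp D) (h : ∀ r0 : ℕ, ∃ r : ℕ, r0 ≤ r ∧ Q241.KL.Upper r) {a b : ℝ}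
    (ha : 0 < a) (hab : a < b) : Tendsto (fun N => Pr D N (Set.Icc a b)) atTop
      (𝓝 (∫ s in a..b, deriv (deriv EE) s)) := by
  rw [int_PP ha hab.le]
  exact Pr_Icc_lim (fun s hs => GG_cont hs) (fun s hs => PN_lim hD h hs) ha hab

end Q241.GL
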